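import Mathlib

set_option autoImplicit false

namespace Pool.Agent.H332C5

/-- adjacency in a path given as a list -/
def E (l : List ℕ) (a b : ℕ) : Prop := [a, b] <:+: l ∨ [b, a] <:+: l

/-- distance four in a path given as a list -/
def D4 (l : List ℕ) (a b : ℕ) : Prop :=
  ∃ f g h, [a, f, g, h, b] <:+: l ∨ [b, f, g, h, a] <:+: l

/-- `a b c d` occur at positions `i, i+2, i+4, i+6` (in this or the reversed direction) -/
def T4 (l : List ℕ) (a b c d : ℕ) : Prop :=
  ∃ f g h, [a, f, b, g, c, h, d] <:+: l ∨ [d, f, c, g, b, h, a] <:+: l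

/-- the union of two paths contains a 5-cycle -/
def C5 (l l' : List ℕ) : Prop :=
  ∃ a b c d e, [a, b, c, d, e].Nodup ∧ (E l a b ∨ E l' a b) ∧ (E l b c ∨ E l' b c) ∧
    (E l c d ∨ E l' c d) ∧ (E l d e ∨ E l' d e) ∧ (E l e a ∨ E l' e a)

lemma E.symm {l : List ℕ} {a b : ℕ} (h : E l a b) : E l b a := Or.symm h

lemma E.mono {l m : List ℕ} {a b : ℕ} (hlm : l <:+: m) (h : E l a b) : E m a b :=
  h.imp (fun h => h.trans hlm) (fun h => h.trans hlm)

lemma D4.symm {l : List ℕ} {a b : ℕ} (h : D4 l a b) : D4 l b a := by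
  obtain ⟨f, g, h', h⟩ := h
  exact ⟨f, g, h', h.symm⟩

lemma D4.mono {l m : List ℕ} {a b : ℕ} (hlm : l <:+: m) (h : D4 l a b) : D4 m a b := by
  obtain ⟨f, g, h', h⟩ := h
  exact ⟨f, g, h', h.imp (fun h => h.trans hlm) (fun h => h.trans hlm)⟩

lemma T4.symm {l : List ℕ} {a b c d : ℕ} (h : T4 l a b c d) : T4 l d c b a := by
  obtain ⟨f, g, h', h⟩ := h
  exact ⟨f, g, h', h.symm⟩

lemma T4.mono {l m : List ℕ} {a b c d : ℕ} (hlm : l <:+: m) (h : T4 l a b c d) : T4 m a b c d := by
  obtain ⟨f, g, h', h⟩ := h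
  exact ⟨f, g, h', h.imp (fun h => h.trans hlm) (fun h => h.trans hlm)⟩

lemma C5.mono {l l' m m' : List ℕ} (h1 : l <:+: m) (h2 : l' <:+: m') (h : C5 l l') : C5 m m' := by
  obtain ⟨a, b, c, d, e, hn, h⟩ := h
  refine ⟨a, b, c, d, e, hn, ?_⟩
  have key : ∀ x y, (E l x y ∨ E l' x y) → (E m x y ∨ E m' x y) :=
    fun x y h => h.imp (E.mono h1) (E.mono h2)
  obtain ⟨q1, q2, q3, q4, q5⟩ := h
  exact ⟨key _ _ q1, key _ _ q2, key _ _ q3, key _ _ q4, key _ _ q5⟩

lemma C5.symm {l l' : List ℕ} (h : C5 l l') : C5 l' l := by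
  obtain ⟨a, b, c, d, e, hn, q1, q2, q3, q4, q5⟩ := h
  exact ⟨a, b, c, d, e, hn, q1.symm, q2.symm, q3.symm, q4.symm, q5.symm⟩

lemma infix_left {l m : List ℕ} {a b : ℕ} (h : (a :: b :: m) <:+: l) : E l a b :=
  Or.inl ((List.prefix_append [a, b] m).isInfix.trans h)

lemma infix_tail {l m : List ℕ} {a : ℕ} (h : (a :: m) <:+: l) : m <:+: l :=
  (List.suffix_cons a m).isInfix.trans h

/-- adjacent in one path and at distance four in the other -/
lemma C5_of_D4_E {l l' : List ℕ} {a b : ℕ} (hl : l.Nodup) (h : D4 l a b) (h' : E l' a b) :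
    C5 l l' := by
  obtain ⟨f, g, k, h | h⟩ := h
  · have hn : [a, f, g, k, b].Nodup := h.sublist.nodup hl
    exact ⟨a, f, g, k, b, hn, Or.inl (infix_left h), Or.inl (infix_left (infix_tail h)),
      Or.inl (infix_left (infix_tail (infix_tail h))),
      Or.inl (infix_left (infix_tail (infix_tail (infix_tail h)))), Or.inr h'.symm⟩
  · have hn : [b, f, g, k, a].Nodup := h.sublist.nodup hl
    exact ⟨b, f, g, k, a, hn, Or.inl (infix_left h), Or.inl (infix_left (infix_tail h)),
      Or.inl (infix_left (infix_tail (infix_tail h))),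
      Or.inl (infix_left (infix_tail (infix_tail (infix_tail h)))), Or.inr h'⟩

/-- `a` and `b` at distance two in `l` (middle `f`), and `a p q b` or `b p q a` in `l'` -/
lemma C5_of_gap {l l' : List ℕ} {a b f p q : ℕ} (hl : l.Nodup) (hl' : l'.Nodup)
    (h : [a, f, b] <:+: l ∨ [b, f, a] <:+: l) (h' : [a, p, q, b] <:+: l' ∨ [b, p, q, a] <:+: l')
    (hfp : f ≠ p) (hfq : f ≠ q) : C5 l l' := by
  have e1 : E l a f := by
    rcases h with h | h
    · exact infix_left h
    · exact (infix_left (infix_tail h)).symm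
  have e2 : E l f b := by
    rcases h with h | h
    · exact infix_left (infix_tail h)
    · exact (infix_left h).symm
  have n1 : [a, f, b].Nodup := by
    rcases h with h | h
    · exact h.sublist.nodup hl
    · have := h.sublist.nodup hl
      simp only [List.nodup_cons, List.mem_cons, List.not_mem_nil, or_false, not_or] at this ⊢
      grind
  rcases h' with h' | h'
  · have n2 : [a, p, q, b].Nodup := h'.sublist.nodup hl'
    refine ⟨a, f, b, q, p, ?_, Or.inl e1, Or.inl e2,
      Or.inr (infix_left (infix_tail (infix_tail h'))).symm,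
      Or.inr (infix_left (infix_tail h')).symm, Or.inr (infix_left h').symm⟩
    simp only [List.nodup_cons, List.mem_cons, List.not_mem_nil, or_false, not_or] at n1 n2 ⊢
    grind
  · have n2 : [b, p, q, a].Nodup := h'.sublist.nodup hl'
    refine ⟨a, f, b, p, q, ?_, Or.inl e1, Or.inl e2,
      Or.inr (infix_left h'), Or.inr (infix_left (infix_tail h')),
      Or.inr (infix_left (infix_tail (infix_tail h')))⟩
    simp only [List.nodup_cons, List.mem_cons, List.not_mem_nil, or_false, not_or] at n1 n2 ⊢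
    grind

lemma append_cons_inj {s t s' t' : List ℕ} {f : ℕ} (hn : (s ++ f :: t).Nodup)
    (h : s ++ f :: t = s' ++ f :: t') : s = s' ∧ t = t' := by
  rw [List.nodup_append] at hn
  have hf1 : f ∉ s := fun hf => hn.2.2 f hf f (by simp) rfl
  have hf2 : f ∉ t := (List.nodup_cons.1 hn.2.1).1
  have := (List.append_cons_inj_of_notMem hf1 hf2).1 h
  exact ⟨this.1, this.2.2⟩

/-- In a duplicate free path, an inner vertex has only its two neighbours. -/
lemma E_middle {l : List ℕ} (hl : l.Nodup) {a f b x : ℕ} (h : [a, f, b] <:+: l) (he : E l f x) :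
    x = a ∨ x = b := by
  obtain ⟨s, t, rfl⟩ := h
  have hn1 : ((s ++ [a]) ++ f :: (b :: t)).Nodup := by simpa using hl
  rcases he with he | he
  · obtain ⟨s', t', h'⟩ := he
    have h1 : (s ++ [a]) ++ f :: (b :: t) = s' ++ f :: (x :: t') := by
      simpa using h'.symm
    have := (append_cons_inj hn1 h1).2
    right
    simp at this
    exact this.1.symm
  · obtain ⟨s', t', h'⟩ := he
    have h1 : (s ++ [a]) ++ f :: (b :: t) = (s' ++ [x]) ++ f :: t' := by
      simpa using h'.symm
    have := (append_cons_inj hn1 h1).1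
    left
    have := congrArg List.getLast? this
    simp at this
    exact this.symm

end Pool.Agent.H332C5
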