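import Pool.Agent.H332_C5.Items

set_option autoImplicit false

namespace Pool.Agent.H332C5

def doms : It → List Dm
  | .blk _ d e => [d, e]
  | .two d e => [d, e]
  | .three d e f => [d, e, f]
  | .zit _ _ => []

/-- gap promise of a block `g`: two consecutive entries of its chain have the domino `(p,q)`
in between -/
def Gap (l : List ℕ) (g : Gp) (D : List Dm) : Prop :=
  ∃ a b p q, ((a = g.1.1 ∧ b = g.2.1) ∨ (a = g.2.1 ∧ b = g.1.2) ∨ (a = g.1.2 ∧ b = g.2.2)) ∧
    ((p, q) ∈ D ∨ (q, p) ∈ D) ∧ ([a, p, q, b] <:+: l ∨ [b, p, q, a] <:+: l)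

lemma Gap.mono {l m : List ℕ} {g : Gp} {D D' : List Dm} (h : Gap l g D) (hlm : l <:+: m)
    (hD : ∀ d ∈ D, d ∈ D') : Gap m g D' := by
  obtain ⟨a, b, p, q, h1, h2, h3⟩ := h
  exact ⟨a, b, p, q, h1, h2.imp (hD _) (hD _), h3.imp (fun h => h.trans hlm) (fun h => h.trans hlm)⟩

lemma wd_E {c : ℕ → Bool} {it : It} {d : Dm} (h : d ∈ doms it) : E (wd c it) d.1 d.2 := by
  cases it with
  | blk g d1 d2 =>
    have := tBDD_adj (c g.1.1) (c d1.1) (c d2.1)
    have h1 := (adjb_sound this.1).map (sym [0, g.1.1, g.2.1, g.1.2, g.2.2, d1.1, d1.2, d2.1, d2.2])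
    have h2 := (adjb_sound this.2).map (sym [0, g.1.1, g.2.1, g.1.2, g.2.2, d1.1, d1.2, d2.1, d2.2])
    simp only [doms, List.mem_cons, List.not_mem_nil, or_false] at h
    rcases h with rfl | rfl
    · exact h1
    · exact h2
  | two d1 d2 =>
    have := tHH_adj (c d1.1) (c d2.1)
    have h1 := (adjb_sound this.1).map (sym [0, d1.1, d1.2, d2.1, d2.2])
    have h2 := (adjb_sound this.2).map (sym [0, d1.1, d1.2, d2.1, d2.2])
    simp only [doms, List.mem_cons, List.not_mem_nil, or_false] at h
    rcases h with rfl | rfl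
    · exact h1
    · exact h2
  | three d1 d2 d3 =>
    have := tDDD_adj (c d1.1) (c d2.1) (c d3.1)
    have h1 := (adjb_sound this.1).map (sym [0, d1.1, d1.2, d2.1, d2.2, d3.1, d3.2])
    have h2 := (adjb_sound this.2.1).map (sym [0, d1.1, d1.2, d2.1, d2.2, d3.1, d3.2])
    have h3 := (adjb_sound this.2.2).map (sym [0, d1.1, d1.2, d2.1, d2.2, d3.1, d3.2])
    simp only [doms, List.mem_cons, List.not_mem_nil, or_false] at h
    rcases h with rfl | rfl | rfl
    · exact h1
    · exact h2
    · exact h3
  | zit X Y => simp [doms] at h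

lemma wd_blk {c : ℕ → Bool} {g : Gp} {d1 d2 : Dm} :
    D4 (wd c (.blk g d1 d2)) g.1.1 g.1.2 ∧ D4 (wd c (.blk g d1 d2)) g.2.1 g.2.2 ∧
      Gap (wd c (.blk g d1 d2)) g [d1, d2] := by
  have h := tBDD_D4 (c g.1.1) (c d1.1) (c d2.1)
  have h1 := (dist4b_sound h.1).map (sym [0, g.1.1, g.2.1, g.1.2, g.2.2, d1.1, d1.2, d2.1, d2.2])
  have h2 := (dist4b_sound h.2).map (sym [0, g.1.1, g.2.1, g.1.2, g.2.2, d1.1, d1.2, d2.1, d2.2])
  refine ⟨h1, h2, ?_⟩
  obtain ⟨a, ha, d, hd, hi⟩ := tBDD_gap (c g.1.1) (c d1.1) (c d2.1)
  have hi' := hi.imp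
    (fun h => h.map (sym [0, g.1.1, g.2.1, g.1.2, g.2.2, d1.1, d1.2, d2.1, d2.2]))
    (fun h => h.map (sym [0, g.1.1, g.2.1, g.1.2, g.2.2, d1.1, d1.2, d2.1, d2.2]))
  refine ⟨_, _, _, _, ?_, ?_, hi'⟩
  · simp only [List.mem_cons, List.not_mem_nil, or_false] at ha
    rcases ha with rfl | rfl | rfl
    · left; exact ⟨rfl, rfl⟩
    · right; left; exact ⟨rfl, rfl⟩
    · right; right; exact ⟨rfl, rfl⟩
  · simp only [List.mem_cons, List.not_mem_nil, or_false] at hd
    rcases hd with rfl | rfl | rfl | rfl
    · left; simp [sym]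
    · right; simp [sym]
    · left; simp [sym]
    · right; simp [sym]

lemma wd_zit {c : ℕ → Bool} {X Y : List ℕ} (h : X.length = Y.length) :
    G4 (wd c (.zit X Y)) X ∧ G4 (wd c (.zit X Y)) Y ∧ Zp (wd c (.zit X Y)) X Y := by
  simp only [wd]
  split_ifs with hc
  · have := G4_ileave _ Y X rfl (by omega) (by omega)
    refine ⟨this.2, this.1, ?_⟩
    rintro x1 x2 X' y1 y2 Y' rfl rfl
    right
    simp only [ileave_cons]
    exact Or.inl ⟨[y1], x2 :: ileave Y' X', by simp⟩
  · have := G4_ileave _ X Y rfl (by omega) (by omega)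
    refine ⟨this.1, this.2, ?_⟩
    rintro x1 x2 X' y1 y2 Y' rfl rfl
    left
    simp only [ileave_cons]
    exact Or.inr ⟨[x1], y2 :: ileave X' Y', by simp⟩

/-- items made from dominoes only -/
def domI (D : List Dm) : List It :=
  if Even D.length then (prs D).map (fun p => .two p.1 p.2) else
    match D with
    | d :: e :: f :: D => .three d e f :: (prs D).map (fun p => .two p.1 p.2)
    | _ => []

def blkI : List Gp → List Dm → List It
  | [], D => domI D
  | g :: gs, d :: e :: D => .blk g d e :: blkI gs D
  | _ :: _, _ => []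

lemma lft_nil_of_even {α : Type} {L : List α} (h : Even L.length) : lft L = [] := by
  have h1 := prs_length L
  have h2 := lft_length_le L
  apply List.length_eq_zero_iff.1
  obtain ⟨r, hr⟩ := h
  omega

lemma prs_two_sum {D : List Dm} (h : Even D.length) :
    (((prs D).map (fun p => It.two p.1 p.2)).map ms).sum = (D.map dm).sum := by
  rw [prs_sum dm D, lft_nil_of_even h]
  simp [Function.comp_def, ms]

lemma domI_sum {D : List Dm} (h : D.length ≠ 1) : ((domI D).map ms).sum = (D.map dm).sum := by
  unfold domI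
  split_ifs with he
  · exact prs_two_sum he
  · match D with
    | [] => simp at he
    | [_] => simp at h
    | [_, _] => simp at he
    | d :: e :: f :: D =>
      have he' : Even D.length := by
        simp only [List.length_cons] at he
        rw [Nat.not_even_iff_odd] at he
        obtain ⟨r, hr⟩ := he
        exact ⟨r - 1, by omega⟩
      simp only [List.map_cons, List.sum_cons]
      have := prs_two_sum he'
      rw [this]
      simp only [ms]
      abel

lemma blkI_sum {gs : List Gp} {D : List Dm} (h : 2 * gs.length ≤ D.length)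
    (h' : D.length ≠ 2 * gs.length + 1) :
    ((blkI gs D).map ms).sum = (gs.map gm).sum + (D.map dm).sum := by
  induction gs generalizing D with
  | nil =>
    simp only [blkI, List.map_nil, List.sum_nil, zero_add]
    exact domI_sum (by simpa using h')
  | cons g gs ih =>
    match D with
    | [] => simp at h
    | [_] => simp at h; omega
    | d :: e :: D =>
      simp only [List.length_cons] at h h'
      have := ih (D := D) (by omega) (by omega)
      simp only [blkI, List.map_cons, List.sum_cons, this, ms]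
      abel

lemma domI_doms {D : List Dm} (h : D.length ≠ 1) : ∀ d ∈ D, ∃ it ∈ domI D, d ∈ doms it := by
  have key : ∀ D : List Dm, Even D.length → ∀ d ∈ D,
      ∃ it ∈ (prs D).map (fun p => It.two p.1 p.2), d ∈ doms it := by
    intro D he d hd
    rcases mem_prs_or hd with ⟨p, hp, h⟩ | h
    · refine ⟨_, List.mem_map.2 ⟨p, hp, rfl⟩, ?_⟩
      simp only [doms, List.mem_cons, List.not_mem_nil, or_false]
      exact h
    · rw [lft_nil_of_even he] at h
      simp at h
  unfold domI
  split_ifs with he
  · exact key D he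
  · match D with
    | [] => simp
    | [_] => simp at h
    | [_, _] => simp at he
    | d :: e :: f :: D =>
      have he' : Even D.length := by
        simp only [List.length_cons] at he
        rw [Nat.not_even_iff_odd] at he
        obtain ⟨r, hr⟩ := he
        exact ⟨r - 1, by omega⟩
      intro x hx
      by_cases hx' : x ∈ D
      · obtain ⟨it, h1, h2⟩ := key D he' x hx'
        exact ⟨it, List.mem_cons_of_mem _ h1, h2⟩
      · refine ⟨.three d e f, by simp, ?_⟩
        simp only [List.mem_cons, hx', or_false] at hx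
        simpa [doms] using hx

lemma blkI_doms {gs : List Gp} {D : List Dm} (h : 2 * gs.length ≤ D.length)
    (h' : D.length ≠ 2 * gs.length + 1) : ∀ d ∈ D, ∃ it ∈ blkI gs D, d ∈ doms it := by
  induction gs generalizing D with
  | nil =>
    simp only [blkI]
    exact domI_doms (by simpa using h')
  | cons g gs ih =>
    match D with
    | [] => simp
    | [_] => simp at h; omega
    | d :: e :: D =>
      simp only [List.length_cons] at h h'
      have := ih (D := D) (by omega) (by omega)
      intro x hx
      by_cases hx' : x ∈ D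
      · obtain ⟨it, h1, h2⟩ := this x hx'
        exact ⟨it, List.mem_cons_of_mem _ h1, h2⟩
      · refine ⟨.blk g d e, by simp [blkI], ?_⟩
        simp only [List.mem_cons, hx', or_false] at hx
        simpa [doms] using hx

lemma blkI_blk {gs : List Gp} {D : List Dm} (h : 2 * gs.length ≤ D.length) :
    ∀ g ∈ gs, ∃ d ∈ D, ∃ e ∈ D, It.blk g d e ∈ blkI gs D := by
  induction gs generalizing D with
  | nil => simp
  | cons g gs ih =>
    match D with
    | [] => simp at h
    | [_] => simp at h; omega
    | d :: e :: D =>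
      simp only [List.length_cons] at h
      have := ih (D := D) (by omega)
      intro x hx
      rcases List.mem_cons.1 hx with rfl | hx
      · exact ⟨d, by simp, e, by simp, by simp [blkI]⟩
      · obtain ⟨d', h1, e', h2, h3⟩ := this x hx
        exact ⟨d', by simp [h1], e', by simp [h2], by simp [blkI, h3]⟩

lemma domI_ok {c : ℕ → Bool} {D : List Dm} (hD : ∀ d ∈ D, okD c d) : ∀ it ∈ domI D, okI c it := by
  have key : ∀ D : List Dm, (∀ d ∈ D, okD c d) →
      ∀ it ∈ (prs D).map (fun p => It.two p.1 p.2), okI c it := by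
    intro D hD it hit
    obtain ⟨p, hp, rfl⟩ := List.mem_map.1 hit
    exact ⟨hD _ (mem_prs hp).1, hD _ (mem_prs hp).2⟩
  unfold domI
  split_ifs with he
  · exact key D hD
  · match D with
    | [] => simp
    | [_] => simp
    | [_, _] => simp
    | d :: e :: f :: D =>
      intro it hit
      rcases List.mem_cons.1 hit with rfl | hit
      · exact ⟨hD _ (by simp), hD _ (by simp), hD _ (by simp)⟩
      · exact key D (fun d hd => hD d (by simp [hd])) it hit

lemma blkI_ok {c : ℕ → Bool} {gs : List Gp} {D : List Dm} (hg : ∀ g ∈ gs, okG c g)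
    (hD : ∀ d ∈ D, okD c d) : ∀ it ∈ blkI gs D, okI c it := by
  induction gs generalizing D with
  | nil =>
    simp only [blkI]
    exact domI_ok hD
  | cons g gs ih =>
    match D with
    | [] => simp [blkI]
    | [_] => simp [blkI]
    | d :: e :: D =>
      have := ih (D := D) (fun g h => hg g (by simp [h])) (fun d h => hD d (by simp [h]))
      intro it hit
      simp only [blkI, List.mem_cons] at hit
      rcases hit with rfl | hit
      · exact ⟨hg _ (by simp), hD _ (by simp), hD _ (by simp)⟩
      · exact this it hit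

end Pool.Agent.H332C5
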