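import Pool.Agent.H332_C5.Main

set_option autoImplicit false

namespace Pool.Agent.H332C5

/-- the pairs `(2i+1, 2i+2)`, `i < N`, last pair first -/
def prsN : ℕ → List Dm
  | 0 => []
  | N + 1 => (2 * N + 1, 2 * N + 2) :: prsN N

lemma prsN_sum (N : ℕ) : ({0} + ((prsN N).map dm).sum : Multiset ℕ) = Multiset.range (2 * N + 1) := by
  induction N with
  | zero => simp [prsN]
  | succ N ih =>
    have : 2 * (N + 1) + 1 = (2 * N + 1) + 1 + 1 := by ring
    rw [this, Multiset.range_succ, Multiset.range_succ, ← ih]
    simp only [prsN, List.map_cons, List.sum_cons, dm]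
    have e : ((↑[2 * N + 1, 2 * N + 2] : Multiset ℕ)) = {2 * N + 1} + {2 * N + 1 + 1} := rfl
    rw [e]
    simp only [← Multiset.singleton_add]
    abel

/-- the colouring given by a set -/
def cS (S : Finset ℕ) (z : ℕ) : Bool := decide (z ∈ S)

/-- weight of a colouring -/
def W (c : ℕ → Bool) : Option Bool → List Dm → ℚ
  | _, [] => 1
  | none, p :: P => if c p.1 == c p.2 then W c (some (c p.1)) P else (2 / 3) * W c none P
  | some b, p :: P => if c p.1 == c p.2 then (if b == c p.1 then W c none P else
      (9 / 4) * W c none P) else (2 / 3) * W c (some b) P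

lemma W_eq (c : ℕ → Bool) (P : List Dm) :
    W c none P = (2 / 3) ^ (Hl c P).length * (9 / 4) ^ (blks c (Vl c P)).length ∧
    ∀ v : Dm, W c (some (c v.1)) P =
      (2 / 3) ^ (Hl c P).length * (9 / 4) ^ (blks c (v :: Vl c P)).length := by
  induction P with
  | nil => simp [W, Hl, Vl, blks, prs]
  | cons p P ih =>
    obtain ⟨ih1, ih2⟩ := ih
    by_cases hp : c p.1 = c p.2
    · have hH : Hl c (p :: P) = Hl c P := by simp [Hl, hp]
      have hV : Vl c (p :: P) = p :: Vl c P := by simp [Vl, hp]
      rw [hH, hV]
      constructor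
      · simp only [W, hp, beq_self_eq_true, if_true]
        rw [← hp, ih2 p]
      · intro v
        simp only [W, hp, beq_self_eq_true, if_true]
        by_cases hv : c v.1 = c p.1
        · have hb : blks c (v :: p :: Vl c P) = blks c (Vl c P) := by
            simp [blks, prs, sameg, hv]
          rw [hb, ← hp, hv]
          simp only [beq_self_eq_true, if_true]
          exact ih1
        · have hb : blks c (v :: p :: Vl c P) = (v, p) :: blks c (Vl c P) := by
            simp [blks, prs, sameg, hv]
          rw [hb, ← hp]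
          have : (c v.1 == c p.1) = false := by simpa using hv
          simp only [this, List.length_cons, pow_succ]
          rw [ih1]
          simp only [Bool.false_eq_true, if_false]
          ring
    · have hH : Hl c (p :: P) = p :: Hl c P := by simp [Hl, hp]
      have hV : Vl c (p :: P) = Vl c P := by simp [Vl, hp]
      have hb : (c p.1 == c p.2) = false := by simpa using hp
      rw [hH, hV]
      constructor
      · simp only [W, hb, Bool.false_eq_true, if_false, List.length_cons, pow_succ]
        rw [ih1]; ring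
      · intro v
        simp only [W, hb, Bool.false_eq_true, if_false, List.length_cons, pow_succ]
        rw [ih2 v]; ring

lemma W_nonneg (c : ℕ → Bool) (σ : Option Bool) (P : List Dm) : 0 ≤ W c σ P := by
  induction P generalizing σ with
  | nil => cases σ <;> simp [W]
  | cons p P ih =>
    cases σ with
    | none =>
      simp only [W]; split_ifs
      · exact ih _
      · exact mul_nonneg (by norm_num) (ih _)
    | some b =>
      simp only [W]; split_ifs
      · exact ih _
      · exact mul_nonneg (by norm_num) (ih _)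
      · exact mul_nonneg (by norm_num) (ih _)

lemma W_bad {c : ℕ → Bool} {P : List Dm} (h : ¬ Good c P) : 8 / 27 ≤ W c none P := by
  rw [(W_eq c P).1]
  unfold Good at h
  set β := (blks c (Vl c P)).length
  set η := (Hl c P).length
  have h1 : η ≤ 2 * β + 3 := by omega
  have h2 : ((2 : ℚ) / 3) ^ (2 * β + 3) ≤ (2 / 3) ^ η :=
    pow_le_pow_of_le_one (by norm_num) (by norm_num) h1
  have h3 : ((2 : ℚ) / 3) ^ (2 * β + 3) * (9 / 4) ^ β = 8 / 27 := by
    rw [pow_add, pow_mul, mul_right_comm, ← mul_pow]
    norm_num
  rw [← h3]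
  exact mul_le_mul_of_nonneg_right h2 (by positivity)

lemma W_congr {c c' : ℕ → Bool} {P : List Dm} (h : ∀ p ∈ P, c p.1 = c' p.1 ∧ c p.2 = c' p.2)
    (σ : Option Bool) : W c σ P = W c' σ P := by
  induction P generalizing σ with
  | nil => cases σ <;> simp [W]
  | cons p P ih =>
    have h1 := h p (by simp)
    have ih' := fun σ => ih (fun p hp => h p (by simp [hp])) σ
    cases σ <;> simp only [W, h1.1, h1.2, ih']

lemma prsN_lt {N : ℕ} : ∀ p ∈ prsN N, p.1 < 2 * N + 1 ∧ p.2 < 2 * N + 1 := by
  induction N with
  | zero => simp [prsN]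
  | succ N ih =>
    intro p hp
    simp only [prsN, List.mem_cons] at hp
    rcases hp with rfl | hp
    · constructor <;> simp only <;> omega
    · have := ih p hp
      omega

lemma W_insert {N a : ℕ} (ha : 2 * N + 1 ≤ a) (S : Finset ℕ) (σ : Option Bool) :
    W (cS (insert a S)) σ (prsN N) = W (cS S) σ (prsN N) := by
  apply W_congr
  intro p hp
  have := prsN_lt p hp
  have h1 : p.1 ≠ a := by omega
  have h2 : p.2 ≠ a := by omega
  simp [cS, h1, h2]

/-- total weight -/
def FF (σ : Option Bool) (N : ℕ) : ℚ :=
  ∑ S ∈ (Finset.range (2 * N + 1)).powerset, W (cS S) σ (prsN N)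

lemma FF_succ (σ : Option Bool) (N : ℕ) : FF σ (N + 1) =
    ∑ S ∈ (Finset.range (2 * N + 1)).powerset,
      (W (cS S) σ (prsN (N + 1)) + W (cS (insert (2 * N + 1) S)) σ (prsN (N + 1)) +
        (W (cS (insert (2 * N + 2) S)) σ (prsN (N + 1)) +
          W (cS (insert (2 * N + 2) (insert (2 * N + 1) S))) σ (prsN (N + 1)))) := by
  unfold FF
  have e : 2 * (N + 1) + 1 = (2 * N + 1) + 1 + 1 := by ring
  rw [e, Finset.range_add_one, Finset.sum_powerset_insert (by simp), Finset.range_add_one,
    Finset.sum_powerset_insert (by simp), Finset.sum_powerset_insert (by simp)]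
  simp only [Finset.sum_add_distrib]

lemma FF_none_succ (N : ℕ) :
    FF none (N + 1) = FF (some false) N + FF (some true) N + (4 / 3) * FF none N := by
  rw [FF_succ]
  unfold FF
  rw [Finset.mul_sum, ← Finset.sum_add_distrib, ← Finset.sum_add_distrib]
  apply Finset.sum_congr rfl
  intro S hS
  have hS' := Finset.mem_powerset.1 hS
  have m1 : 2 * N + 1 ∉ S := fun h => by have := Finset.mem_range.1 (hS' h); omega
  have m2 : 2 * N + 2 ∉ S := fun h => by have := Finset.mem_range.1 (hS' h); omega
  have i1 := W_insert (N := N) (a := 2 * N + 1) le_rfl S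
  have i2 := W_insert (N := N) (a := 2 * N + 2) (by omega) S
  have i3 := W_insert (N := N) (a := 2 * N + 2) (by omega) (insert (2 * N + 1) S)
  simp only [prsN, W, cS, m1, m2, Finset.mem_insert, i1, i2, i3] at *
  simp
  ring

lemma FF_some_succ (N : ℕ) (b : Bool) :
    FF (some b) (N + 1) = (4 / 3) * FF (some b) N + (13 / 4) * FF none N := by
  rw [FF_succ]
  unfold FF
  rw [Finset.mul_sum, Finset.mul_sum, ← Finset.sum_add_distrib]
  apply Finset.sum_congr rfl
  intro S hS
  have hS' := Finset.mem_powerset.1 hS
  have m1 : 2 * N + 1 ∉ S := fun h => by have := Finset.mem_range.1 (hS' h); omega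
  have m2 : 2 * N + 2 ∉ S := fun h => by have := Finset.mem_range.1 (hS' h); omega
  have i1 := W_insert (N := N) (a := 2 * N + 1) le_rfl S
  have i2 := W_insert (N := N) (a := 2 * N + 2) (by omega) S
  have i3 := W_insert (N := N) (a := 2 * N + 2) (by omega) (insert (2 * N + 1) S)
  simp only [prsN, W, cS, m1, m2, Finset.mem_insert, i1, i2, i3] at *
  cases b
  · simp
    ring
  · simp
    ring

lemma FF_bound (N : ℕ) : FF none N ≤ 2 * (59 / 15) ^ N ∧
    ∀ b, FF (some b) N ≤ (13 / 5) * (59 / 15) ^ N := by
  induction N with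
  | zero =>
    constructor
    · simp [FF, prsN, W]
    · intro b
      simp [FF, prsN, W]
      norm_num
  | succ N ih =>
    obtain ⟨h1, h2⟩ := ih
    have hf := h2 false
    have ht := h2 true
    have hp : (0 : ℚ) < (59 / 15) ^ N := by positivity
    constructor
    · rw [FF_none_succ, pow_succ]; linarith
    · intro b
      have hb := h2 b
      rw [FF_some_succ, pow_succ]; linarith

open Classical in
/-- the bad colourings are few -/
lemma bad_card (N : ℕ) :
    (((Finset.range (2 * N + 1)).powerset.filter
      (fun S => ¬ Good (cS S) (prsN N))).card : ℚ) ≤ (27 / 4) * (59 / 15) ^ N := by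
  have h1 : (((Finset.range (2 * N + 1)).powerset.filter
      (fun S => ¬ Good (cS S) (prsN N))).card : ℚ) * (8 / 27) ≤ FF none N := by
    rw [← nsmul_eq_mul, ← Finset.sum_const]
    unfold FF
    calc ∑ _S ∈ (Finset.range (2 * N + 1)).powerset.filter (fun S => ¬ Good (cS S) (prsN N)),
          ((8 : ℚ) / 27)
        ≤ ∑ S ∈ (Finset.range (2 * N + 1)).powerset.filter (fun S => ¬ Good (cS S) (prsN N)),
          W (cS S) none (prsN N) := by
          apply Finset.sum_le_sum
          intro S hS
          exact W_bad (Finset.mem_filter.1 hS).2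
      _ ≤ _ := by
          apply Finset.sum_le_sum_of_subset_of_nonneg (Finset.filter_subset _ _)
          intro S _ _
          exact W_nonneg _ _ _
  have h2 := (FF_bound N).1
  linarith

/-- balance means `N+1` true vertices -/
lemma Bal_iff {N : ℕ} {S : Finset ℕ} (hS : S ⊆ Finset.range (2 * N + 1)) :
    Bal (cS S) (prsN N) ↔ S.card = N + 1 := by
  have h1 : ∀ (c : ℕ → Bool) (N : ℕ), sg (c 0) + ((prsN N).map (fun p => sg (c p.1) + sg (c p.2))).sum
      = ∑ z ∈ Finset.range (2 * N + 1), sg (c z) := by
    intro c N
    induction N with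
    | zero => simp [prsN]
    | succ N ih =>
      have : 2 * (N + 1) + 1 = (2 * N + 1) + 1 + 1 := by ring
      rw [this, Finset.sum_range_succ, Finset.sum_range_succ, ← ih]
      simp only [prsN, List.map_cons, List.sum_cons]
      ring
  have h2 : ∑ z ∈ Finset.range (2 * N + 1), sg (cS S z) = 2 * (S.card : ℤ) - (2 * N + 1) := by
    have e : ∀ z, sg (cS S z) = 2 * (if z ∈ S then 1 else 0) - 1 := by
      intro z
      by_cases hz : z ∈ S <;> simp [cS, sg, hz]
    simp only [e]
    rw [Finset.sum_sub_distrib, ← Finset.mul_sum, Finset.sum_ite_mem,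
      Finset.inter_eq_right.2 hS]
    simp
  unfold Bal
  rw [h1, h2]
  constructor
  · intro h; omega
  · intro h; omega

open Classical in
/-- the index set of the family -/
noncomputable def Fam (N : ℕ) : Finset (Finset ℕ) :=
  ((Finset.range (2 * N + 1)).powersetCard (N + 1)).filter (fun S => Good (cS S) (prsN N))

lemma Fam_card (N : ℕ) :
    ((2 * N + 1).choose N : ℚ) - (27 / 4) * (59 / 15) ^ N ≤ ((Fam N).card : ℚ) := by
  classical
  have h1 : ((Finset.range (2 * N + 1)).powersetCard (N + 1)).card = (2 * N + 1).choose N := by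
    rw [Finset.card_powersetCard, Finset.card_range]
    exact Nat.choose_symm_half N
  have h2 := Finset.card_filter_add_card_filter_not
    (s := (Finset.range (2 * N + 1)).powersetCard (N + 1)) (fun S => Good (cS S) (prsN N))
  have h3 : (((Finset.range (2 * N + 1)).powersetCard (N + 1)).filter
      (fun S => ¬ Good (cS S) (prsN N))).card ≤
      ((Finset.range (2 * N + 1)).powerset.filter (fun S => ¬ Good (cS S) (prsN N))).card := by
    apply Finset.card_le_card
    apply Finset.filter_subset_filter
    exact fun S hS => Finset.mem_powerset.2 (Finset.mem_powersetCard.1 hS).1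
  have h4 := bad_card N
  have h5 : (((Finset.range (2 * N + 1)).powersetCard (N + 1)).filter
      (fun S => ¬ Good (cS S) (prsN N))).card ≤ (27 / 4 : ℚ) * (59 / 15) ^ N := by
    refine le_trans ?_ h4
    exact_mod_cast h3
  rw [h1] at h2
  have h6 : (((Fam N).card : ℕ) : ℚ) + (((Finset.range (2 * N + 1)).powersetCard (N + 1)).filter
      (fun S => ¬ Good (cS S) (prsN N))).card = ((2 * N + 1).choose N : ℚ) := by
    rw [← h2]
    unfold Fam
    push_cast
    rfl
  linarith

end Pool.Agent.H332C5
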