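import Pool.Agent.H332_C5.Basic

set_option autoImplicit false

namespace Pool.Agent.H332C5

/-- pair up consecutive entries -/
def prs {α : Type} : List α → List (α × α)
  | [] => []
  | [_] => []
  | a :: b :: L => (a, b) :: prs L

/-- the entry left over by `prs`, if any -/
def lft {α : Type} : List α → List α
  | [] => []
  | [a] => [a]
  | _ :: _ :: L => lft L

/-- interleave two lists, starting with the first -/
def ileave : List ℕ → List ℕ → List ℕ
  | [], Y => Y
  | x :: X, Y => x :: ileave Y X
termination_by X Y => X.length + Y.length

@[simp] lemma ileave_nil (Y : List ℕ) : ileave [] Y = Y := by rw [ileave]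
@[simp] lemma ileave_cons (x : ℕ) (X Y : List ℕ) : ileave (x :: X) Y = x :: ileave Y X := by
  rw [ileave]

lemma prs_sum {α : Type} (f : α → Multiset ℕ) (L : List α) :
    (L.map f).sum = ((prs L).map (fun p => f p.1 + f p.2)).sum + ((lft L).map f).sum := by
  fun_induction prs L with
  | case1 => simp [lft]
  | case2 => simp [lft]
  | case3 a b L ih => simp [lft, ih]; abel

lemma prs_sumZ {α : Type} (f : α → ℤ) (L : List α) :
    (L.map f).sum = ((prs L).map (fun p => f p.1 + f p.2)).sum + ((lft L).map f).sum := by
  fun_induction prs L with
  | case1 => simp [lft]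
  | case2 => simp [lft]
  | case3 a b L ih => simp [lft, ih]; ring

lemma filter_sum {α : Type} (f : α → Multiset ℕ) (p : α → Bool) (L : List α) :
    (L.map f).sum = ((L.filter p).map f).sum + ((L.filter (fun x => !p x)).map f).sum := by
  induction L with
  | nil => simp
  | cons a L ih =>
    by_cases h : p a
    · simp [h, ih]; abel
    · simp [h, ih]; abel

lemma filter_sumZ {α : Type} (f : α → ℤ) (p : α → Bool) (L : List α) :
    (L.map f).sum = ((L.filter p).map f).sum + ((L.filter (fun x => !p x)).map f).sum := by
  induction L with
  | nil => simp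
  | cons a L ih =>
    by_cases h : p a
    · simp [h, ih]; ring
    · simp [h, ih]; ring

lemma mem_prs {α : Type} {L : List α} {p : α × α} (h : p ∈ prs L) : p.1 ∈ L ∧ p.2 ∈ L := by
  fun_induction prs L with
  | case1 => simp at h
  | case2 => simp at h
  | case3 a b L ih =>
    rcases List.mem_cons.1 h with h | h
    · subst h; simp
    · have := ih h
      simp [this.1, this.2]

lemma mem_of_lft {α : Type} {L : List α} {x : α} (h : x ∈ lft L) : x ∈ L := by
  fun_induction lft L with
  | case1 => simp at h
  | case2 => simpa using h
  | case3 a b L ih => simp [ih h]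

lemma mem_prs_or {α : Type} {L : List α} {x : α} (h : x ∈ L) :
    (∃ p ∈ prs L, x = p.1 ∨ x = p.2) ∨ x ∈ lft L := by
  fun_induction prs L with
  | case1 => simp at h
  | case2 => right; simpa [lft] using h
  | case3 a b L ih =>
    rcases List.mem_cons.1 h with h | h
    · left; exact ⟨(a, b), by simp, Or.inl h⟩
    · rcases List.mem_cons.1 h with h | h
      · left; exact ⟨(a, b), by simp, Or.inr h⟩
      · rcases ih h with ⟨p, hp, hx⟩ | h
        · left; exact ⟨p, by simp [hp], hx⟩
        · right; simpa [lft] using h

lemma prs_length {α : Type} (L : List α) : 2 * (prs L).length + (lft L).length = L.length := by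
  fun_induction prs L with
  | case1 => simp [lft]
  | case2 => simp [lft]
  | case3 a b L ih => simp only [List.length_cons, lft]; omega

lemma lft_length_le {α : Type} (L : List α) : (lft L).length ≤ 1 := by
  fun_induction lft L with
  | case1 => simp
  | case2 => simp
  | case3 a b L ih => exact ih

lemma coe_ileave (X Y : List ℕ) : ((ileave X Y : List ℕ) : Multiset ℕ) = (X : Multiset ℕ) + Y := by
  fun_induction ileave X Y with
  | case1 => simp
  | case2 x X Y ih =>
    rw [← Multiset.cons_coe, ih, ← Multiset.cons_coe]
    rw [Multiset.cons_add, add_comm]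

/-- colours alternate, starting with `b` -/
def Alt (c : ℕ → Bool) : Bool → List ℕ → Prop
  | _, [] => True
  | b, a :: l => c a = b ∧ Alt c (!b) l

lemma Alt_append_even {c : ℕ → Bool} {b : Bool} {l m : List ℕ} (hl : Even l.length) :
    Alt c b (l ++ m) ↔ Alt c b l ∧ Alt c b m := by
  match l with
  | [] => simp [Alt]
  | [a] => simp at hl
  | a :: a' :: l =>
    have hl' : Even l.length := by
      simp only [List.length_cons] at hl
      rcases hl with ⟨r, hr⟩
      exact ⟨r - 1, by omega⟩
    simp only [List.cons_append, Alt, Bool.not_not]
    rw [Alt_append_even hl']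
    tauto

lemma Alt_append_odd {c : ℕ → Bool} {b : Bool} {l m : List ℕ} (hl : Odd l.length) :
    Alt c b (l ++ m) ↔ Alt c b l ∧ Alt c (!b) m := by
  match l with
  | [] => simp at hl
  | a :: l =>
    have hl' : Even l.length := by
      simp only [List.length_cons] at hl
      rcases hl with ⟨r, hr⟩
      exact ⟨r, by omega⟩
    simp only [List.cons_append, Alt]
    rw [Alt_append_even hl']
    tauto

lemma Alt_ileave {c : ℕ → Bool} {b : Bool} {X Y : List ℕ}
    (hlen : X.length = Y.length ∨ X.length = Y.length + 1)
    (hX : ∀ x ∈ X, c x = b) (hY : ∀ y ∈ Y, c y = !b) : Alt c b (ileave X Y) := by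
  fun_induction ileave X Y generalizing b with
  | case1 Y =>
    have : Y = [] := by
      rcases hlen with h | h
      · simpa using h.symm
      · simp at h
    subst this
    simp [Alt]
  | case2 x X Y ih =>
    refine ⟨hX x (by simp), ?_⟩
    apply ih
    · simp only [List.length_cons] at hlen
      omega
    · exact hY
    · intro y hy
      rw [Bool.not_not]
      exact hX y (by simp [hy])

lemma Alt_agree {c c' : ℕ → Bool} {b : Bool} {l : List ℕ} (h : Alt c b l) (h' : Alt c' b l) :
    ∀ z ∈ l, c z = c' z := by
  induction l generalizing b with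
  | nil => simp
  | cons a l ih =>
    intro z hz
    rcases List.mem_cons.1 hz with rfl | hz
    · rw [h.1, h'.1]
    · exact ih h.2 h'.2 z hz

lemma Alt_E {c : ℕ → Bool} {b : Bool} {l : List ℕ} (h : Alt c b l) {x y : ℕ} (he : E l x y) :
    c x ≠ c y := by
  have key : ∀ x y, [x, y] <:+: l → c x ≠ c y := by
    intro x y ⟨s, t, hs⟩
    subst hs
    rcases Nat.even_or_odd s.length with hs | hs
    · rw [List.append_assoc, Alt_append_even hs] at h
      have h1 := h.2.1
      have h2 := h.2.2.1
      rw [h1, h2]; cases b <;> simp
    · rw [List.append_assoc, Alt_append_odd hs] at h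
      have h1 := h.2.1
      have h2 := h.2.2.1
      rw [h1, h2]; cases b <;> simp
  rcases he with he | he
  · exact key _ _ he
  · exact (key _ _ he).symm

/-- every four consecutive entries of the chain `X` are at distances two in `l` -/
def G4 (l X : List ℕ) : Prop := ∀ a b c d, [a, b, c, d] <:+: X → T4 l a b c d

lemma G4.sub {l X Y : List ℕ} (h : G4 l Y) (hXY : X <:+: Y) : G4 l X :=
  fun a b c d h' => h a b c d (h'.trans hXY)

lemma G4.mono {l m X : List ℕ} (h : G4 l X) (hlm : l <:+: m) : G4 m X :=
  fun a b c d h' => (h a b c d h').mono hlm

lemma G4.reverse {l X : List ℕ} (h : G4 l X) : G4 l X.reverse := by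
  intro a b c d h'
  have : [d, c, b, a] <:+: X := by
    have := List.reverse_infix.2 h'
    simpa using this
  exact (h _ _ _ _ this).symm

lemma G4_ileave : ∀ (n : ℕ) (X Y : List ℕ), X.length + Y.length = n → Y.length ≤ X.length →
    X.length ≤ Y.length + 1 → G4 (ileave X Y) X ∧ G4 (ileave X Y) Y := by
  intro n
  induction n with
  | zero =>
    intro X Y h _ _
    have hX : X = [] := List.length_eq_zero_iff.1 (by omega)
    have hY : Y = [] := List.length_eq_zero_iff.1 (by omega)
    subst hX hY
    constructor <;>
    · intro a b c d h
      simp at h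
  | succ n ih =>
    intro X Y h h1 h2
    match X with
    | [] =>
      simp at h1 
      subst h1
      simp at h
    | x :: X =>
      rw [ileave_cons]
      simp only [List.length_cons] at h h1 h2
      have := ih Y X (by omega) (by omega) (by omega)
      have hinf : ileave Y X <:+: x :: ileave Y X := (List.suffix_cons _ _).isInfix
      refine ⟨?_, this.1.mono hinf⟩
      intro a b c d hh
      rcases List.infix_cons_iff.1 hh with hh | hh
      · -- first case
        obtain ⟨t, ht⟩ := hh
        simp only [List.cons_append, List.nil_append, List.cons.injEq] at ht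
        obtain ⟨rfl, rfl⟩ := ht
        match Y with
        | [] => simp only [List.length_cons, List.length_nil] at h2; omega
        | [_] => simp only [List.length_cons, List.length_nil] at h2; omega
        | [_, _] => simp only [List.length_cons, List.length_nil] at h2; omega
        | f :: g :: k :: Y =>
          refine ⟨f, g, k, Or.inl ?_⟩
          simp only [ileave_cons]
          exact (List.prefix_append [a, f, b, g, c, k, d] _).isInfix
      · exact (this.2.mono hinf) a b c d hh

lemma ileave_length (X Y : List ℕ) : (ileave X Y).length = X.length + Y.length := by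
  fun_induction ileave X Y with
  | case1 => simp
  | case2 x X Y ih => simp only [List.length_cons, ih]; omega

end Pool.Agent.H332C5
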