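import Pool.Agent.H332_C5.Defs

set_option autoImplicit false

namespace Pool.Agent.H332C5

/-- the graph of a list -/
def gr (n : ℕ) (l : List ℕ) : SimpleGraph (Fin n) where
  Adj a b := a ≠ b ∧ E l a b
  symm := ⟨fun _ _ h => ⟨h.1.symm, h.2.symm⟩⟩
  loopless := ⟨fun _ h => h.1 rfl⟩

lemma E_getElem {l : List ℕ} (hl : l.Nodup) {i j : ℕ} (hi : i < l.length) (hj : j < l.length) :
    E l l[i] l[j] ↔ i + 1 = j ∨ j + 1 = i := by
  have key : ∀ {i j : ℕ} (hi : i < l.length) (hj : j < l.length),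
      [l[i], l[j]] <:+: l ↔ i + 1 = j := by
    intro i j hi hj
    constructor
    · rintro ⟨s, t, h⟩
      have h1 : (s ++ [l[i], l[j]] ++ t)[s.length]? = some l[i] := by simp
      have h2 : (s ++ [l[i], l[j]] ++ t)[s.length + 1]? = some l[j] := by simp
      rw [h] at h1 h2
      have e1 := (List.getElem?_eq_some_iff.1 h1)
      have e2 := (List.getElem?_eq_some_iff.1 h2)
      obtain ⟨q1, e1⟩ := e1
      obtain ⟨q2, e2⟩ := e2
      have := (List.Nodup.getElem_inj_iff hl).1 e1
      have := (List.Nodup.getElem_inj_iff hl).1 e2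
      omega
    · rintro rfl
      refine ⟨l.take i, l.drop (i + 2), ?_⟩
      conv_rhs => rw [← List.take_append_drop i l]
      rw [List.append_assoc]
      congr 1
      rw [List.drop_eq_getElem_cons hi, List.drop_eq_getElem_cons hj]
      simp
  unfold E
  rw [key hi hj, key hj hi]

lemma gr_iso {n : ℕ} {l : List ℕ} (h : (l : Multiset ℕ) = Multiset.range n) :
    Nonempty (SimpleGraph.pathGraph n ≃g gr n l) := by
  have hl : l.Nodup := by
    rw [← Multiset.coe_nodup, h]; exact Multiset.nodup_range n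
  have hlen : l.length = n := by
    have := congrArg Multiset.card h
    simpa using this
  have hmem : ∀ x, x ∈ l ↔ x < n := by
    intro x
    rw [← Multiset.mem_coe, h, Multiset.mem_range]
  have hb : ∀ i : Fin n, l[i.1]'(by omega) < n := fun i => (hmem _).1 (List.getElem_mem _)
  let φ : Fin n → Fin n := fun i => ⟨l[i.1]'(by omega), hb i⟩
  have hinj : Function.Injective φ := by
    intro i j hij
    have := congrArg Fin.val hij
    simp only [φ] at this
    exact Fin.ext ((List.Nodup.getElem_inj_iff hl).1 this)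
  have hbij : Function.Bijective φ := Finite.injective_iff_bijective.1 hinj
  refine ⟨⟨Equiv.ofBijective φ hbij, ?_⟩⟩
  intro i j
  simp only [Equiv.ofBijective_apply, SimpleGraph.pathGraph_adj, gr]
  constructor
  · rintro ⟨_, h⟩
    exact (E_getElem hl _ _).1 h
  · intro h
    refine ⟨?_, (E_getElem hl _ _).2 h⟩
    intro he
    have := congrArg Fin.val (hinj he)
    omega

lemma C5_cycle {n : ℕ} {l l' : List ℕ} (hl : ∀ x ∈ l, x < n) (hl' : ∀ x ∈ l', x < n)
    (h : C5 l l') : ∃ v : Fin n, ∃ w : (gr n l ⊔ gr n l').Walk v v, w.IsCycle ∧ w.length = 5 := by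
  obtain ⟨a, b, c, d, e, hn, q1, q2, q3, q4, q5⟩ := h
  have mem : ∀ {l : List ℕ} {x y : ℕ}, E l x y → x ∈ l := by
    intro l x y h
    rcases h with h | h
    · exact h.subset (by simp)
    · exact h.subset (by simp)
  have lt : ∀ {x y : ℕ}, (E l x y ∨ E l' x y) → x < n := by
    rintro x y (h | h)
    · exact hl _ (mem h)
    · exact hl' _ (mem h)
  have adj : ∀ {x y : ℕ} (hx : x < n) (hy : y < n), x ≠ y → (E l x y ∨ E l' x y) →
      (gr n l ⊔ gr n l').Adj ⟨x, hx⟩ ⟨y, hy⟩ := by
    intro x y hx hy hne h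
    rw [SimpleGraph.sup_adj]
    have hne' : (⟨x, hx⟩ : Fin n) ≠ ⟨y, hy⟩ := fun h => hne (congrArg Fin.val h)
    exact h.imp (fun h => ⟨hne', h⟩) (fun h => ⟨hne', h⟩)
  have ha := lt q1
  have hb := lt q2
  have hc := lt q3
  have hd := lt q4
  have he := lt q5
  simp only [List.nodup_cons, List.mem_cons, List.not_mem_nil, or_false, not_or] at hn
  obtain ⟨⟨n1, n2, n3, n4⟩, ⟨n5, n6, n7⟩, ⟨n8, n9⟩, n10, -⟩ := hn
  have a1 := adj ha hb n1 q1
  have a2 := adj hb hc n5 q2
  have a3 := adj hc hd n8 q3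
  have a4 := adj hd he n10 q4
  have a5 := adj he ha (fun h => n4 h.symm) q5
  refine ⟨⟨a, ha⟩, .cons a1 (.cons a2 (.cons a3 (.cons a4 (.cons a5 .nil)))), ?_, by simp⟩
  rw [SimpleGraph.Walk.isCycle_def]
  refine ⟨?_, by simp, ?_⟩
  · rw [SimpleGraph.Walk.isTrail_def]
    simp only [SimpleGraph.Walk.edges_cons, SimpleGraph.Walk.edges_nil, List.nodup_cons,
      List.mem_cons, List.not_mem_nil, or_false, Sym2.eq_iff, Fin.mk.injEq]
    grind
  · simp only [SimpleGraph.Walk.support_cons, SimpleGraph.Walk.support_nil, List.tail_cons,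
      List.nodup_cons, List.mem_cons, List.not_mem_nil, or_false, Fin.mk.injEq]
    grind

/-- an alternating path has no 5-cycle, so different colourings give different graphs -/
lemma gr_ne {n : ℕ} {l l' : List ℕ} (hl' : ∀ x ∈ l', x < n)
    (h : C5 l l') {c : ℕ → Bool} {b : Bool} (hc : Alt c b l) : gr n l ≠ gr n l' := by
  intro heq
  obtain ⟨x1, x2, x3, x4, x5, hn, q1, q2, q3, q4, q5⟩ := h
  have mem : ∀ {l : List ℕ} {x y : ℕ}, E l x y → x ∈ l ∧ y ∈ l := by
    intro l x y h
    rcases h with h | h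
    · exact ⟨h.subset (by simp), h.subset (by simp)⟩
    · exact ⟨h.subset (by simp), h.subset (by simp)⟩
  have key : ∀ {x y : ℕ}, x ≠ y → (E l x y ∨ E l' x y) → c x ≠ c y := by
    intro x y hne h
    rcases h with h | h
    · exact Alt_E hc h
    · have hx := hl' _ (mem h).1
      have hy := hl' _ (mem h).2
      have : (gr n l').Adj ⟨x, hx⟩ ⟨y, hy⟩ := ⟨fun h => hne (congrArg Fin.val h), h⟩
      rw [← heq] at this
      exact Alt_E hc this.2
  simp only [List.nodup_cons, List.mem_cons, List.not_mem_nil, or_false, not_or] at hn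
  obtain ⟨⟨n1, n2, n3, n4⟩, ⟨n5, n6, n7⟩, ⟨n8, n9⟩, n10, -⟩ := hn
  have a1 := key n1 q1
  have a2 := key n5 q2
  have a3 := key n8 q3
  have a4 := key n10 q4
  have a5 := key (fun h => n4 h.symm) q5
  revert a1 a2 a3 a4 a5
  cases c x1 <;> cases c x2 <;> cases c x3 <;> cases c x4 <;> cases c x5 <;> simp

end Pool.Agent.H332C5
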