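import Pool.Agent.H332_C5.Count
import Pool.Agent.H332_C5.Graph

set_option autoImplicit false

namespace Pool.Agent.H332C5

/-- the path of a set -/
def LL (N : ℕ) (S : Finset ℕ) : List ℕ := PP (cS S) (prsN N)

lemma mem_Fam {N : ℕ} {S : Finset ℕ} (h : S ∈ Fam N) :
    S ⊆ Finset.range (2 * N + 1) ∧ Bal (cS S) (prsN N) ∧ Good (cS S) (prsN N) := by
  classical
  unfold Fam at h
  rw [Finset.mem_filter, Finset.mem_powersetCard] at h
  exact ⟨h.1.1, (Bal_iff h.1.1).2 h.1.2, h.2⟩

lemma LL_range {N : ℕ} {S : Finset ℕ} (h : S ∈ Fam N) :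
    ((LL N S : List ℕ) : Multiset ℕ) = Multiset.range (2 * N + 1) := by
  unfold LL
  rw [PP_sum (mem_Fam h).2.1 (mem_Fam h).2.2, prsN_sum]

lemma LL_C5 {N : ℕ} {S S' : Finset ℕ} (h : S ∈ Fam N) (h' : S' ∈ Fam N) (hne : S ≠ S') :
    C5 (LL N S) (LL N S') := by
  obtain ⟨a1, a2, a3⟩ := mem_Fam h
  obtain ⟨b1, b2, b3⟩ := mem_Fam h'
  have hP : ({0} + ((prsN N).map dm).sum : Multiset ℕ).Nodup := by
    rw [prsN_sum]; exact Multiset.nodup_range _
  rcases PP_compare hP a2 a3 b2 b3 with he | hc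
  · exfalso
    apply hne
    have := PP_inj a2 a3 b2 b3 he
    ext z
    by_cases hz : z < 2 * N + 1
    · have hz' : z ∈ PP (cS S) (prsN N) := by
        rw [← Multiset.mem_coe, PP_sum a2 a3, prsN_sum, Multiset.mem_range]; exact hz
      have := this z hz'
      simpa [cS] using this
    · constructor
      · intro h; exact absurd (Finset.mem_range.1 (a1 h)) hz
      · intro h; exact absurd (Finset.mem_range.1 (b1 h)) hz
  · exact hc

/-- a family of Hamiltonian paths from the family of sets -/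
lemma family (n N : ℕ) (t : List ℕ)
    (ht : Multiset.range (2 * N + 1) + (t : Multiset ℕ) = Multiset.range n)
    (ht' : ∀ c : ℕ → Bool, (∀ z, 2 * N + 1 ≤ z → c z = false) → Alt c false t) :
    ∃ F : Finset (SimpleGraph (Fin n)), F.card = (Fam N).card ∧
      (∀ P ∈ F, Nonempty (SimpleGraph.pathGraph n ≃g P)) ∧
      (F : Set (SimpleGraph (Fin n))).Pairwise
        (fun P Q => ∃ v : Fin n, ∃ w : (P ⊔ Q).Walk v v, w.IsCycle ∧ w.length = 5) := by
  classical
  have hr : ∀ S ∈ Fam N, ((LL N S ++ t : List ℕ) : Multiset ℕ) = Multiset.range n := by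
    intro S hS
    rw [← Multiset.coe_add, LL_range hS, ht]
  have hlt : ∀ S ∈ Fam N, ∀ x ∈ LL N S ++ t, x < n := by
    intro S hS x hx
    rw [← Multiset.mem_coe, hr S hS, Multiset.mem_range] at hx
    exact hx
  have hC : ∀ S ∈ Fam N, ∀ S' ∈ Fam N, S ≠ S' → C5 (LL N S ++ t) (LL N S' ++ t) := by
    intro S hS S' hS' hne
    exact (LL_C5 hS hS' hne).mono (List.prefix_append _ _).isInfix (List.prefix_append _ _).isInfix
  have hAlt : ∀ S ∈ Fam N, Alt (cS S) true (LL N S ++ t) := by
    intro S hS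
    have hlen : (LL N S).length = 2 * N + 1 := by
      have := congrArg Multiset.card (LL_range hS)
      simpa using this
    rw [Alt_append_odd ⟨N, hlen⟩]
    refine ⟨PP_Alt (mem_Fam hS).2.1 (mem_Fam hS).2.2, ht' _ ?_⟩
    intro z hz
    have : z ∉ S := fun h => by
      have := Finset.mem_range.1 ((mem_Fam hS).1 h)
      omega
    simp [cS, this]
  refine ⟨(Fam N).image (fun S => gr n (LL N S ++ t)), ?_, ?_, ?_⟩
  · apply Finset.card_image_of_injOn
    intro S hS S' hS' he
    by_contra hne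
    exact gr_ne (hlt S' hS') (hC S hS S' hS' hne) (hAlt S hS) he
  · intro P hP
    obtain ⟨S, hS, rfl⟩ := Finset.mem_image.1 hP
    exact gr_iso (hr S hS)
  · intro P hP Q hQ hne
    obtain ⟨S, hS, rfl⟩ := Finset.mem_image.1 (Finset.mem_coe.1 hP)
    obtain ⟨S', hS', rfl⟩ := Finset.mem_image.1 (Finset.mem_coe.1 hQ)
    have hne' : S ≠ S' := by rintro rfl; exact hne rfl
    exact C5_cycle (hlt S hS) (hlt S' hS') (hC S hS S' hS' hne')

lemma estimate (n N : ℕ) (hn : n ≤ 2 * N + 2) :
    (27 / 4 : ℝ) * (59 / 15) ^ N ≤ 1700 * (239 / 240) ^ n * ((2 * N + 1).choose N : ℝ) := by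
  have h1 : ((239 : ℝ) / 240) ^ (2 * N + 2) ≤ (239 / 240) ^ n :=
    pow_le_pow_of_le_one (by norm_num) (by norm_num) hn
  have h2 : ((119 : ℝ) / 120) ^ N * (57121 / 57600) ≤ (239 / 240) ^ (2 * N + 2) := by
    rw [pow_add, pow_mul]
    have : ((119 : ℝ) / 120) ^ N ≤ ((239 / 240) ^ 2) ^ N :=
      pow_le_pow_left₀ (by norm_num) (by norm_num) N
    calc ((119 : ℝ) / 120) ^ N * (57121 / 57600)
        ≤ ((239 / 240) ^ 2) ^ N * (57121 / 57600) :=
          mul_le_mul_of_nonneg_right this (by norm_num)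
      _ = _ := by norm_num
  rcases Nat.eq_zero_or_pos N with rfl | hN
  · simp only [pow_zero, mul_one, Nat.choose_zero_right, Nat.cast_one]
    simp only [pow_zero, one_mul] at h2
    linarith
  · have h3 : (4 : ℝ) ^ N ≤ 2 * N * ((2 * N + 1).choose N : ℝ) := by
      have e1 := Nat.four_pow_le_two_mul_self_mul_centralBinom N hN
      have e2 : N.centralBinom ≤ (2 * N + 1).choose N := by
        unfold Nat.centralBinom
        exact Nat.choose_le_succ _ _
      have e3 : 4 ^ N ≤ 2 * N * (2 * N + 1).choose N :=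
        e1.trans (Nat.mul_le_mul_left _ e2)
      exact_mod_cast e3
    have h4 : (N : ℝ) * (59 / 60) ^ N ≤ 118 * (119 / 120) ^ N := by
      have e1 : (1 : ℝ) + N * (1 / 118) ≤ (1 + 1 / 118) ^ N :=
        one_add_mul_le_pow (by norm_num) N
      have e2 : (N : ℝ) ≤ 118 * (119 / 118) ^ N := by
        have : (1 : ℝ) + 1 / 118 = 119 / 118 := by norm_num
        rw [this] at e1
        linarith
      have e3 : ((119 : ℝ) / 118) ^ N * (59 / 60) ^ N = (119 / 120) ^ N := by
        rw [← mul_pow]; norm_num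
      calc (N : ℝ) * (59 / 60) ^ N ≤ 118 * (119 / 118) ^ N * (59 / 60) ^ N :=
            mul_le_mul_of_nonneg_right e2 (by positivity)
        _ = 118 * (119 / 120) ^ N := by rw [mul_assoc, e3]
    have hb : (0 : ℝ) ≤ ((2 * N + 1).choose N : ℝ) := by positivity
    have h5 : ((59 : ℝ) / 15) ^ N = 4 ^ N * (59 / 60) ^ N := by
      rw [← mul_pow]; norm_num
    have h6 : (27 / 4 : ℝ) * (59 / 15) ^ N ≤
        (27 / 2) * (118 * (119 / 120) ^ N) * ((2 * N + 1).choose N : ℝ) := by
      rw [h5]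
      calc (27 / 4 : ℝ) * (4 ^ N * (59 / 60) ^ N)
          ≤ (27 / 4 : ℝ) * ((2 * N * ((2 * N + 1).choose N : ℝ)) * (59 / 60) ^ N) := by
            apply mul_le_mul_of_nonneg_left _ (by norm_num)
            exact mul_le_mul_of_nonneg_right h3 (by positivity)
        _ = (27 / 2) * (N * (59 / 60) ^ N) * ((2 * N + 1).choose N : ℝ) := by ring
        _ ≤ _ := by
            apply mul_le_mul_of_nonneg_right _ hb
            exact mul_le_mul_of_nonneg_left h4 (by norm_num)
    refine h6.trans (mul_le_mul_of_nonneg_right ?_ hb)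
    have hp : (0 : ℝ) < (119 / 120) ^ N := by positivity
    linarith

theorem near_exact (n : ℕ) : ∃ F : Finset (SimpleGraph (Fin n)),
    (∀ P ∈ F, Nonempty (SimpleGraph.pathGraph n ≃g P)) ∧
    (F : Set (SimpleGraph (Fin n))).Pairwise
      (fun P Q => ∃ v : Fin n, ∃ w : (P ⊔ Q).Walk v v, w.IsCycle ∧ w.length = 5) ∧
    (1 - 1700 * (239 / 240 : ℝ) ^ n) *
      ((if Even n then n.choose (n / 2) / 2 else n.choose (n / 2) : ℕ) : ℝ) ≤ (F.card : ℝ) := by
  have key : ∀ N : ℕ, n ≤ 2 * N + 2 →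
      (1 - 1700 * (239 / 240 : ℝ) ^ n) * ((2 * N + 1).choose N : ℝ) ≤ ((Fam N).card : ℝ) := by
    intro N hn
    have h1 := Fam_card N
    have h2 : (((2 * N + 1).choose N : ℝ)) - (27 / 4) * (59 / 15) ^ N ≤ ((Fam N).card : ℝ) := by
      have h1' := (Rat.cast_le (K := ℝ)).2 h1
      push_cast at h1'
      exact h1'
    have h3 := estimate n N hn
    nlinarith
  rcases Nat.even_or_odd n with he | ho
  · rw [if_pos he]
    obtain ⟨m, hm⟩ := he
    rcases Nat.eq_zero_or_pos m with rfl | hmp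
    · refine ⟨∅, by simp, by simp, ?_⟩
      subst hm
      simp
    · obtain ⟨N, rfl⟩ : ∃ N, m = N + 1 := ⟨m - 1, by omega⟩
      have hn : n = 2 * N + 2 := by omega
      obtain ⟨F, h1, h2, h3⟩ := family n N [2 * N + 1] (by
        subst hn
        rw [show 2 * N + 2 = (2 * N + 1) + 1 by ring, Multiset.range_succ (2 * N + 1)]
        rw [Multiset.coe_singleton, add_comm, Multiset.singleton_add]) (by
        intro c hc
        exact ⟨hc _ le_rfl, trivial⟩)
      refine ⟨F, h2, h3, ?_⟩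
      have e1 : n.choose (n / 2) / 2 = (2 * N + 1).choose N := by
        subst hn
        have : (2 * N + 2) / 2 = N + 1 := by omega
        rw [this, Nat.choose_succ_succ' (2 * N + 1) N, Nat.choose_symm_half N]
        omega
      rw [e1, h1]
      exact key N (by omega)
  · have hne : ¬ Even n := Nat.not_even_iff_odd.2 ho
    rw [if_neg hne]
    obtain ⟨N, hN⟩ := ho
    obtain ⟨F, h1, h2, h3⟩ := family n N [] (by subst hN; rw [Multiset.coe_nil, add_zero])
      (by intro c _; trivial)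
    refine ⟨F, h2, h3, ?_⟩
    have e1 : n.choose (n / 2) = (2 * N + 1).choose N := by
      subst hN
      have : (2 * N + 1) / 2 = N := by omega
      rw [this]
    rw [e1, h1]
    exact key N (by omega)

end Pool.Agent.H332C5
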