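import Pool.Agent.H332_C5.Defs

set_option autoImplicit false

namespace Pool.Agent.H332C5

/-- first vertex of a chain -/
def hd (X : List ℕ) : ℕ := X.headD 0

def mg (c : ℕ → Bool) (L : List (List ℕ)) : List (List ℕ) :=
  ((prs L).filter (fun p => c (hd p.1) == c (hd p.2))).map (fun p => p.1.reverse ++ p.2)

def zs (c : ℕ → Bool) (L : List (List ℕ)) : List (List ℕ × List ℕ) :=
  (prs L).filter (fun p => !(c (hd p.1) == c (hd p.2)))

def mZ (c : ℕ → Bool) : ℕ → List (List ℕ) → List (List ℕ × List ℕ)
  | 0, _ => []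
  | f + 1, L => zs c L ++ mZ c f (mg c L)

def mK (c : ℕ → Bool) : ℕ → List (List ℕ) → List (List ℕ)
  | 0, _ => []
  | f + 1, L => lft L ++ mK c f (mg c L)

/-- chains of length `s`, all of one colour -/
def Inv (c : ℕ → Bool) (s : ℕ) (L : List (List ℕ)) : Prop :=
  ∀ X ∈ L, X.length = s ∧ ∀ x ∈ X, c x = c (hd X)

lemma hd_mem {X : List ℕ} (h : 0 < X.length) : hd X ∈ X := by
  match X with
  | [] => simp at h
  | x :: X => simp [hd]

lemma mg_length (c : ℕ → Bool) (L : List (List ℕ)) : 2 * (mg c L).length ≤ L.length := by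
  have h1 := prs_length L
  have h2 : (mg c L).length ≤ (prs L).length := by
    simp only [mg, List.length_map]
    exact List.length_filter_le _ _
  omega

lemma mg_length_le {c : ℕ → Bool} {L : List (List ℕ)} {f : ℕ} (h : L.length ≤ f + 1) :
    (mg c L).length ≤ f := by
  have := mg_length c L
  omega

lemma Inv.mg {c : ℕ → Bool} {s : ℕ} (hs : 0 < s) {L : List (List ℕ)} (h : Inv c s L) :
    Inv c (2 * s) (mg c L) := by
  intro X hX
  simp only [H332C5.mg, List.mem_map, List.mem_filter, beq_iff_eq] at hX
  obtain ⟨p, ⟨hp, hc⟩, rfl⟩ := hX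
  have h1 := h _ (mem_prs hp).1
  have h2 := h _ (mem_prs hp).2
  have hlen : (p.1.reverse ++ p.2).length = 2 * s := by
    simp only [List.length_append, List.length_reverse, h1.1, h2.1]; omega
  refine ⟨hlen, ?_⟩
  have key : ∀ x ∈ p.1.reverse ++ p.2, c x = c (hd p.1) := by
    intro x hx
    rcases List.mem_append.1 hx with hx | hx
    · exact h1.2 x (List.mem_reverse.1 hx)
    · rw [h2.2 x hx, hc]
  intro x hx
  rw [key x hx, key (hd (p.1.reverse ++ p.2)) (hd_mem (by omega))]

/-- the multiset of vertices is preserved -/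
lemma mZK_sum (c : ℕ → Bool) (f : ℕ) (L : List (List ℕ)) (h : L.length ≤ f) :
    (L.map (fun X : List ℕ => (X : Multiset ℕ))).sum =
      ((mZ c f L).map (fun p => (p.1 : Multiset ℕ) + (p.2 : Multiset ℕ))).sum +
        ((mK c f L).map (fun X : List ℕ => (X : Multiset ℕ))).sum := by
  induction f generalizing L with
  | zero =>
    have : L = [] := List.length_eq_zero_iff.1 (by omega)
    subst this
    simp [mZ, mK]
  | succ f ih =>
    have ih' := ih (mg c L) (mg_length_le h)
    simp only [mZ, mK, List.map_append, List.sum_append]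
    rw [prs_sum (fun X : List ℕ => (X : Multiset ℕ)) L,
      filter_sum _ (fun p : List ℕ × List ℕ => c (hd p.1) == c (hd p.2)) (prs L)]
    have e1 : ((mg c L).map (fun X : List ℕ => (X : Multiset ℕ))).sum =
        (((prs L).filter (fun p => c (hd p.1) == c (hd p.2))).map
          (fun p => (p.1 : Multiset ℕ) + (p.2 : Multiset ℕ))).sum := by
      simp only [mg, List.map_map]
      congr 1
      apply List.map_congr_left
      intro p _
      simp [Function.comp, ← Multiset.coe_add, Multiset.coe_reverse]
    rw [← e1, ih']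
    simp only [zs]
    abel

lemma mZ_prop {c : ℕ → Bool} (f : ℕ) {s : ℕ} (hs : 0 < s) {L : List (List ℕ)} (h : Inv c s L) :
    ∀ p ∈ mZ c f L, p.1.length = p.2.length ∧ s ≤ p.1.length ∧ (∀ x ∈ p.1, c x = c (hd p.1)) ∧
      (∀ x ∈ p.2, c x = c (hd p.2)) ∧ c (hd p.2) = !(c (hd p.1)) := by
  induction f generalizing L s with
  | zero => simp [mZ]
  | succ f ih =>
    intro p hp
    simp only [mZ, List.mem_append] at hp
    rcases hp with hp | hp
    · simp only [zs, List.mem_filter] at hp
      have h1 := h _ (mem_prs hp.1).1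
      have h2 := h _ (mem_prs hp.1).2
      refine ⟨by rw [h1.1, h2.1], by rw [h1.1], h1.2, h2.2, ?_⟩
      have := hp.2
      revert this
      cases c (hd p.1) <;> cases c (hd p.2) <;> simp
    · have := ih (s := 2 * s) (by omega) (h.mg hs) p hp
      exact ⟨this.1, by omega, this.2.2⟩

lemma mK_prop {c : ℕ → Bool} (f : ℕ) {s : ℕ} (hs : 0 < s) {L : List (List ℕ)} (h : Inv c s L) :
    ∀ K ∈ mK c f L, s ≤ K.length ∧ (∀ x ∈ K, c x = c (hd K)) := by
  induction f generalizing L s with
  | zero => simp [mK]
  | succ f ih =>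
    intro K hK
    simp only [mK, List.mem_append] at hK
    rcases hK with hK | hK
    · have := h _ (mem_of_lft hK)
      exact ⟨by omega, this.2⟩
    · have := ih (s := 2 * s) (by omega) (h.mg hs) K hK
      exact ⟨by omega, this.2⟩

def sg (b : Bool) : ℤ := if b then 1 else -1

def EE (c : ℕ → Bool) (L : List (List ℕ)) : ℤ := (L.map (fun X => sg (c (hd X)))).sum

lemma EE_step {c : ℕ → Bool} {s : ℕ} (hs : 0 < s) {L : List (List ℕ)} (h : Inv c s L) :
    EE c L = 2 * EE c (mg c L) + EE c (lft L) := by
  unfold EE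
  rw [prs_sumZ (fun X => sg (c (hd X))) L,
      filter_sumZ _ (fun p : List ℕ × List ℕ => c (hd p.1) == c (hd p.2)) (prs L)]
  have e1 : (((prs L).filter (fun p => !(c (hd p.1) == c (hd p.2)))).map
      (fun p => sg (c (hd p.1)) + sg (c (hd p.2)))).sum = 0 := by
    apply List.sum_eq_zero
    intro z hz
    simp only [List.mem_map, List.mem_filter] at hz
    obtain ⟨p, ⟨_, hp⟩, rfl⟩ := hz
    revert hp
    cases c (hd p.1) <;> cases c (hd p.2) <;> simp [sg]
  have e2 : (((prs L).filter (fun p => c (hd p.1) == c (hd p.2))).map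
      (fun p => sg (c (hd p.1)) + sg (c (hd p.2)))).sum =
      2 * ((mg c L).map (fun X => sg (c (hd X)))).sum := by
    simp only [mg, List.map_map]
    rw [← List.sum_map_mul_left]
    congr 1
    apply List.map_congr_left
    intro p hp
    simp only [List.mem_filter, beq_iff_eq] at hp
    have h1 := h _ (mem_prs hp.1).1
    have h2 := h _ (mem_prs hp.1).2
    have hm : hd (p.1.reverse ++ p.2) ∈ p.1.reverse ++ p.2 := hd_mem (by
      simp only [List.length_append, List.length_reverse, h1.1, h2.1]; omega)
    have : c (hd (p.1.reverse ++ p.2)) = c (hd p.1) := by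
      rcases List.mem_append.1 hm with hx | hx
      · exact h1.2 _ (List.mem_reverse.1 hx)
      · rw [h2.2 _ hx, hp.2]
    simp only [Function.comp, this, ← hp.2]
    ring
  rw [e1, e2]
  ring

lemma mK_of_EE_zero {c : ℕ → Bool} (f : ℕ) {s : ℕ} (hs : 0 < s) {L : List (List ℕ)}
    (h : Inv c s L) (hE : EE c L = 0) : mK c f L = [] := by
  induction f generalizing L s with
  | zero => rfl
  | succ f ih =>
    have hstep := EE_step hs h
    have hl := lft_length_le L
    have h0 : lft L = [] := by
      match hL : lft L, hl with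
      | [], _ => rfl
      | [K], _ =>
        exfalso
        rw [hL, hE] at hstep
        simp only [EE, List.map_cons, List.map_nil, List.sum_cons, List.sum_nil] at hstep
        unfold sg at hstep
        split_ifs at hstep <;> omega
      | _ :: _ :: _, h => simp at h
    rw [h0, hE] at hstep
    simp only [EE, List.map_nil, List.sum_nil] at hstep
    have h1 : EE c (mg c L) = 0 := by
      unfold EE
      omega
    simp only [mK, h0, List.nil_append]
    exact ih (s := 2 * s) (by omega) (h.mg hs) h1

lemma mK_of_EE_one {c : ℕ → Bool} (f : ℕ) {s : ℕ} (hs : 0 < s) {L : List (List ℕ)}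
    (h : Inv c s L) (hE : EE c L = 1) (hf : L.length ≤ f) :
    ∃ O K, mK c f L = O ++ [K] ∧ (∀ x ∈ K, c x = true) ∧ (∀ X ∈ O, ∀ x ∈ X, c x = false) ∧
      O.flatten.length + s = K.length := by
  induction f generalizing L s with
  | zero =>
    have : L = [] := List.length_eq_zero_iff.1 (by omega)
    subst this
    simp [EE] at hE
  | succ f ih =>
    have hstep := EE_step hs h
    have hl := lft_length_le L
    match hL : lft L, hl with
    | [], _ =>
      exfalso
      rw [hL, hE] at hstep
      simp only [EE, List.map_nil, List.sum_nil] at hstep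
      omega
    | [K], _ =>
      have hKL : K ∈ L := mem_of_lft (by rw [hL]; simp)
      have hK := h K hKL
      rw [hL, hE] at hstep
      simp only [EE, List.map_cons, List.map_nil, List.sum_cons, List.sum_nil] at hstep
      rcases hcK : c (hd K) with _ | _
      · -- false
        rw [hcK] at hstep
        have h1 : EE c (mg c L) = 1 := by
          simp only [sg, EE] at hstep ⊢
          simp at hstep
          omega
        obtain ⟨O, K', e1, e2, e3, e4⟩ := ih (s := 2 * s) (by omega) (h.mg hs) h1 (mg_length_le hf)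
        refine ⟨K :: O, K', ?_, e2, ?_, ?_⟩
        · simp [mK, hL, e1]
        · intro X hX
          rcases List.mem_cons.1 hX with rfl | hX
          · intro x hx; rw [hK.2 x hx, hcK]
          · exact e3 X hX
        · simp only [List.flatten_cons, List.length_append, hK.1]
          omega
      · rw [hcK] at hstep
        have h1 : EE c (mg c L) = 0 := by
          simp only [sg, EE] at hstep ⊢
          simp at hstep
          omega
        have := mK_of_EE_zero f (s := 2 * s) (by omega) (h.mg hs) h1
        refine ⟨[], K, ?_, ?_, ?_, ?_⟩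
        · simp [mK, hL, this]
        · intro x hx; rw [hK.2 x hx, hcK]
        · simp
        · simp [hK.1]
    | _ :: _ :: _, h => simp at h

/-- if the final chains have the promise then so do the original ones -/
lemma G4_back {c : ℕ → Bool} (f : ℕ) {L : List (List ℕ)} {l : List ℕ} (hf : L.length ≤ f)
    (hZ : ∀ p ∈ mZ c f L, G4 l p.1 ∧ G4 l p.2) (hK : ∀ K ∈ mK c f L, G4 l K) :
    ∀ X ∈ L, G4 l X := by
  induction f generalizing L with
  | zero =>
    have : L = [] := List.length_eq_zero_iff.1 (by omega)
    subst this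
    simp
  | succ f ih =>
    simp only [mZ, mK, List.mem_append] at hZ hK
    have ih' := ih (mg_length_le hf) (fun p hp => hZ p (Or.inr hp)) (fun K h => hK K (Or.inr h))
    intro X hX
    rcases mem_prs_or hX with ⟨p, hp, hX⟩ | hX
    · by_cases hc : c (hd p.1) = c (hd p.2)
      · have hm : p.1.reverse ++ p.2 ∈ mg c L := by
          simp only [mg, List.mem_map, List.mem_filter, beq_iff_eq]
          exact ⟨p, ⟨hp, hc⟩, rfl⟩
        have := ih' _ hm
        rcases hX with rfl | rfl
        · have h1 : G4 l p.1.reverse := this.sub (List.prefix_append _ _).isInfix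
          have := h1.reverse
          simpa using this
        · exact this.sub (List.suffix_append _ _).isInfix
      · have hm : p ∈ zs c L := by
          simp only [zs, List.mem_filter]
          exact ⟨hp, by simpa using hc⟩
        have := hZ p (Or.inl hm)
        rcases hX with rfl | rfl
        · exact this.1
        · exact this.2
    · exact hK X (Or.inl hX)

/-- promise of a pair of chains of different colours -/
def Zp (l X Y : List ℕ) : Prop :=
  ∀ x1 x2 X' y1 y2 Y', X = x1 :: x2 :: X' → Y = y1 :: y2 :: Y' → E l x2 y1 ∨ E l x1 y2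

lemma T4.D4a {l : List ℕ} {a b c d : ℕ} (h : T4 l a b c d) : D4 l a c := by
  obtain ⟨f, g, k, h | h⟩ := h
  · exact ⟨f, b, g, Or.inl ((List.prefix_append [a, f, b, g, c] [k, d]).isInfix.trans h)⟩
  · exact ⟨g, b, k, Or.inr ((List.suffix_append [d, f] [c, g, b, k, a]).isInfix.trans h)⟩

lemma T4.D4b {l : List ℕ} {a b c d : ℕ} (h : T4 l a b c d) : D4 l b d := h.symm.D4a.symm

lemma merge_C5 {c : ℕ → Bool} {f s : ℕ} (hs : 2 ≤ s) {L : List (List ℕ)} (hI : Inv c s L)
    {l l' : List ℕ} (hl : l.Nodup) (hf : L.length ≤ f + 1)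
    (hZ : ∀ p ∈ mZ c (f + 1) L, G4 l p.1 ∧ G4 l p.2) (hK : ∀ K ∈ mK c (f + 1) L, G4 l K)
    {p : List ℕ × List ℕ} (hp : p ∈ prs L) (hc : c (hd p.1) = c (hd p.2)) (hZp : Zp l' p.1 p.2) :
    C5 l l' := by
  simp only [mZ, mK, List.mem_append] at hZ hK
  have hG := G4_back f (mg_length_le hf) (fun p hp => hZ p (Or.inr hp)) (fun K h => hK K (Or.inr h))
  have hm : p.1.reverse ++ p.2 ∈ mg c L := by
    simp only [mg, List.mem_map, List.mem_filter, beq_iff_eq]
    exact ⟨p, ⟨hp, hc⟩, rfl⟩
  have h1 := (hI _ (mem_prs hp).1).1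
  have h2 := (hI _ (mem_prs hp).2).1
  obtain ⟨X, Y⟩ := p
  match X, Y, h1, h2 with
  | [], _, h1, _ => simp at h1; omega
  | [_], _, h1, _ => simp at h1; omega
  | _, [], _, h2 => simp at h2; omega
  | _, [_], _, h2 => simp at h2; omega
  | x1 :: x2 :: X, y1 :: y2 :: Y, _, _ =>
    have hT : T4 l x2 x1 y1 y2 := by
      apply hG _ hm
      refine ⟨X.reverse, Y, ?_⟩
      simp
    rcases hZp x1 x2 X y1 y2 Y rfl rfl with h | h
    · exact C5_of_D4_E hl hT.D4a h
    · exact C5_of_D4_E hl hT.D4b h

lemma merge_compare {c c' : ℕ → Bool} (f : ℕ) {s : ℕ} (hs : 2 ≤ s) {L : List (List ℕ)}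
    (hI : Inv c s L) (hI' : Inv c' s L) {l l' : List ℕ} (hl : l.Nodup) (hl' : l'.Nodup)
    (hf : L.length ≤ f)
    (hZ : ∀ p ∈ mZ c f L, G4 l p.1 ∧ G4 l p.2) (hK : ∀ K ∈ mK c f L, G4 l K)
    (hZ' : ∀ p ∈ mZ c' f L, G4 l' p.1 ∧ G4 l' p.2) (hK' : ∀ K ∈ mK c' f L, G4 l' K)
    (hp : ∀ p ∈ mZ c f L, Zp l p.1 p.2) (hp' : ∀ p ∈ mZ c' f L, Zp l' p.1 p.2) :
    (mZ c f L = mZ c' f L ∧ mK c f L = mK c' f L) ∨ C5 l l' := by
  induction f generalizing L s with
  | zero => left; simp [mZ, mK]
  | succ f ih =>
    by_cases hall : ∀ p ∈ prs L, (c (hd p.1) = c (hd p.2) ↔ c' (hd p.1) = c' (hd p.2))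
    · have e1 : mg c L = mg c' L := by
        unfold mg
        congr 1
        apply List.filter_congr
        intro p hp
        have := hall p hp
        rw [Bool.eq_iff_iff]
        simpa using this
      have e2 : zs c L = zs c' L := by
        unfold zs
        apply List.filter_congr
        intro p hp
        have := hall p hp
        rw [Bool.eq_iff_iff]
        simpa using not_congr this
      simp only [mZ, mK, List.mem_append] at hZ hK hZ' hK' hp hp' ⊢
      have := ih (s := 2 * s) (L := mg c L) (by omega) (hI.mg (by omega))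
        (by rw [e1]; exact hI'.mg (by omega)) (mg_length_le hf)
        (fun p h => hZ p (Or.inr h)) (fun K h => hK K (Or.inr h))
        (fun p h => hZ' p (Or.inr (by rw [← e1]; exact h)))
        (fun K h => hK' K (Or.inr (by rw [← e1]; exact h)))
        (fun p h => hp p (Or.inr h)) (fun p h => hp' p (Or.inr (by rw [← e1]; exact h)))
      rcases this with ⟨h1, h2⟩ | h
      · left
        rw [e2, ← e1, h1, h2]
        exact ⟨rfl, rfl⟩
      · right; exact h
    · right
      push Not at hall
      obtain ⟨p, hpL, h⟩ := hall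
      rcases h with ⟨h1, h2⟩ | ⟨h1, h2⟩
      · have : p ∈ mZ c' (f + 1) L := by
          simp only [mZ, List.mem_append, zs, List.mem_filter]
          exact Or.inl ⟨hpL, by simpa using h2⟩
        exact merge_C5 hs hI hl hf hZ hK hpL h1 (hp' p this)
      · have : p ∈ mZ c (f + 1) L := by
          simp only [mZ, List.mem_append, zs, List.mem_filter]
          exact Or.inl ⟨hpL, by simpa using h1⟩
        exact (merge_C5 hs hI' hl' hf hZ' hK' hpL h2 (hp p this)).symm

end Pool.Agent.H332C5
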