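import Pool.Agent.H332_C5.Tables
import Pool.Agent.H332_C5.Merge

set_option autoImplicit false

namespace Pool.Agent.H332C5

abbrev Dm := ℕ × ℕ
abbrev Gp := (ℕ × ℕ) × (ℕ × ℕ)

/-- building blocks attached after the apex -/
inductive It
  | blk (g : Gp) (d e : Dm)
  | two (d e : Dm)
  | three (d e f : Dm)
  | zit (X Y : List ℕ)

/-- the word of an item -/
def wd (c : ℕ → Bool) : It → List ℕ
  | .blk g d e => (tBDD (c g.1.1) (c d.1) (c e.1)).map
      (sym [0, g.1.1, g.2.1, g.1.2, g.2.2, d.1, d.2, e.1, e.2])
  | .two d e => (tHH (c d.1) (c e.1)).map (sym [0, d.1, d.2, e.1, e.2])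
  | .three d e f => (tDDD (c d.1) (c e.1) (c f.1)).map (sym [0, d.1, d.2, e.1, e.2, f.1, f.2])
  | .zit X Y => if c (hd X) then ileave Y X else ileave X Y

def dm (d : Dm) : Multiset ℕ := ↑[d.1, d.2]
def gm (g : Gp) : Multiset ℕ := ↑[g.1.1, g.2.1, g.1.2, g.2.2]

/-- the vertices of an item -/
def ms : It → Multiset ℕ
  | .blk g d e => gm g + dm d + dm e
  | .two d e => dm d + dm e
  | .three d e f => dm d + dm e + dm f
  | .zit X Y => ↑X + ↑Y

def okD (c : ℕ → Bool) (d : Dm) : Prop := c d.2 = !(c d.1)
def okG (c : ℕ → Bool) (g : Gp) : Prop :=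
  c g.1.2 = c g.1.1 ∧ c g.2.1 = !(c g.1.1) ∧ c g.2.2 = !(c g.1.1)

def okI (c : ℕ → Bool) : It → Prop
  | .blk g d e => okG c g ∧ okD c d ∧ okD c e
  | .two d e => okD c d ∧ okD c e
  | .three d e f => okD c d ∧ okD c e ∧ okD c f
  | .zit X Y => X.length = Y.length ∧ 2 ≤ X.length ∧ (∀ x ∈ X, c x = c (hd X)) ∧
      (∀ y ∈ Y, c y = c (hd Y)) ∧ c (hd Y) = !(c (hd X))

lemma wd_ms (c : ℕ → Bool) (it : It) : ((wd c it : List ℕ) : Multiset ℕ) = ms it := by
  cases it with
  | blk g d e =>
    have h := (tBDD_perm (c g.1.1) (c d.1) (c e.1)).map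
      (sym [0, g.1.1, g.2.1, g.1.2, g.2.2, d.1, d.2, e.1, e.2])
    exact Multiset.coe_eq_coe.2 h
  | two d e =>
    have h := (tHH_perm (c d.1) (c e.1)).map (sym [0, d.1, d.2, e.1, e.2])
    exact Multiset.coe_eq_coe.2 h
  | three d e f =>
    have h := (tDDD_perm (c d.1) (c e.1) (c f.1)).map (sym [0, d.1, d.2, e.1, e.2, f.1, f.2])
    exact Multiset.coe_eq_coe.2 h
  | zit X Y =>
    simp only [wd, ms]
    split_ifs
    · rw [coe_ileave, add_comm]
    · rw [coe_ileave]

lemma wd_Alt {c : ℕ → Bool} {it : It} (h : okI c it) : Alt c false (wd c it) := by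
  cases it with
  | blk g d e =>
    obtain ⟨⟨h1, h2, h3⟩, h4, h5⟩ := h
    unfold okD at h4 h5
    simp only [wd]
    cases hx : c g.1.1 <;> cases hy : c d.1 <;> cases hz : c e.1 <;>
      simp [tBDD, sym, Alt, h1, h2, h3, h4, h5, hx, hy, hz]
  | two d e =>
    obtain ⟨h4, h5⟩ := h
    unfold okD at h4 h5
    simp only [wd]
    cases hy : c d.1 <;> cases hz : c e.1 <;>
      simp [tHH, sym, Alt, h4, h5, hy, hz]
  | three d e f =>
    obtain ⟨h4, h5, h6⟩ := h
    unfold okD at h4 h5 h6
    simp only [wd]
    cases hx : c d.1 <;> cases hy : c e.1 <;> cases hz : c f.1 <;>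
      simp [tDDD, sym, Alt, h4, h5, h6, hx, hy, hz]
  | zit X Y =>
    obtain ⟨h1, h2, h3, h4, h5⟩ := h
    simp only [wd]
    split_ifs with hc
    · apply Alt_ileave (Or.inl h1.symm)
      · intro y hy; rw [h4 y hy, h5, hc]; rfl
      · intro x hx; rw [h3 x hx, hc]; rfl
    · have hc' : c (hd X) = false := by simpa using hc
      apply Alt_ileave (Or.inl h1)
      · intro x hx; rw [h3 x hx, hc']
      · intro y hy; rw [h4 y hy, h5, hc']

lemma wd_even {c : ℕ → Bool} {it : It} (h : okI c it) : Even (wd c it).length := by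
  have := congrArg Multiset.card (wd_ms c it)
  rw [Multiset.coe_card] at this
  rw [this]
  cases it with
  | blk g d e => simp [ms, gm, dm]; decide
  | two d e => simp [ms, dm]; decide
  | three d e f => simp [ms, dm]; decide
  | zit X Y => simp only [ms, Multiset.card_add, Multiset.coe_card, h.1]; exact ⟨Y.length, rfl⟩

lemma wd_C5 {c c' : ℕ → Bool} {it : It} (h : okI c it) {e : ℕ}
    (hn : (e :: wd c it).Nodup) (hne : wd c it ≠ wd c' it) :
    C5 (e :: wd c it) (e :: wd c' it) := by
  have hnd : (e ::ₘ ms it).Nodup := by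
    rw [← wd_ms c it, Multiset.cons_coe, Multiset.coe_nodup]; exact hn
  cases it with
  | blk g d d' =>
    have hp : (c g.1.1, c d.1, c d'.1) ≠ (c' g.1.1, c' d.1, c' d'.1) := by
      intro heq
      simp only [Prod.mk.injEq] at heq
      apply hne
      simp only [wd, heq.1, heq.2.1, heq.2.2]
    have key := tBDD_C5 _ _ _ _ _ _ hp
    have hS : [e, g.1.1, g.2.1, g.1.2, g.2.2, d.1, d.2, d'.1, d'.2].Nodup := by
      exact Multiset.coe_nodup.1 hnd
    have := C5_sym hS (by
      intro x hx
      rcases List.mem_cons.1 hx with rfl | hx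
      · simp
      · have := (tBDD_perm (c g.1.1) (c d.1) (c d'.1)).subset hx
        revert this; simp; omega) (by
      intro x hx
      rcases List.mem_cons.1 hx with rfl | hx
      · simp
      · have := (tBDD_perm (c' g.1.1) (c' d.1) (c' d'.1)).subset hx
        revert this; simp; omega) key
    have e1 : ∀ p q r : Bool, (0 :: tBDD p q r).map
        (sym [e, g.1.1, g.2.1, g.1.2, g.2.2, d.1, d.2, d'.1, d'.2]) = e :: (tBDD p q r).map
        (sym [0, g.1.1, g.2.1, g.1.2, g.2.2, d.1, d.2, d'.1, d'.2]) := by
      intro p q r; cases p <;> cases q <;> cases r <;> rfl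
    rw [e1, e1] at this
    exact this
  | two d d' =>
    have hp : (c d.1, c d'.1) ≠ (c' d.1, c' d'.1) := by
      intro heq
      simp only [Prod.mk.injEq] at heq
      apply hne
      simp only [wd, heq.1, heq.2]
    have key := tHH_C5 _ _ _ _ hp
    have hS : [e, d.1, d.2, d'.1, d'.2].Nodup := by
      exact Multiset.coe_nodup.1 hnd
    have := C5_sym hS (by
      intro x hx
      rcases List.mem_cons.1 hx with rfl | hx
      · simp
      · have := (tHH_perm (c d.1) (c d'.1)).subset hx
        revert this; simp; omega) (by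
      intro x hx
      rcases List.mem_cons.1 hx with rfl | hx
      · simp
      · have := (tHH_perm (c' d.1) (c' d'.1)).subset hx
        revert this; simp; omega) key
    have e1 : ∀ p q : Bool, (0 :: tHH p q).map (sym [e, d.1, d.2, d'.1, d'.2]) =
        e :: (tHH p q).map (sym [0, d.1, d.2, d'.1, d'.2]) := by
      intro p q; cases p <;> cases q <;> rfl
    rw [e1, e1] at this
    exact this
  | three d d' d'' =>
    have hp : (c d.1, c d'.1, c d''.1) ≠ (c' d.1, c' d'.1, c' d''.1) := by
      intro heq
      simp only [Prod.mk.injEq] at heq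
      apply hne
      simp only [wd, heq.1, heq.2.1, heq.2.2]
    have key := tDDD_C5 _ _ _ _ _ _ hp
    have hS : [e, d.1, d.2, d'.1, d'.2, d''.1, d''.2].Nodup := by
      exact Multiset.coe_nodup.1 hnd
    have := C5_sym hS (by
      intro x hx
      rcases List.mem_cons.1 hx with rfl | hx
      · simp
      · have := (tDDD_perm (c d.1) (c d'.1) (c d''.1)).subset hx
        revert this; simp; omega) (by
      intro x hx
      rcases List.mem_cons.1 hx with rfl | hx
      · simp
      · have := (tDDD_perm (c' d.1) (c' d'.1) (c' d''.1)).subset hx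
        revert this; simp; omega) key
    have e1 : ∀ p q r : Bool, (0 :: tDDD p q r).map
        (sym [e, d.1, d.2, d'.1, d'.2, d''.1, d''.2]) = e :: (tDDD p q r).map
        (sym [0, d.1, d.2, d'.1, d'.2, d''.1, d''.2]) := by
      intro p q r; cases p <;> cases q <;> cases r <;> rfl
    rw [e1, e1] at this
    exact this
  | zit X Y =>
    obtain ⟨h1, h2, -, -, -⟩ := h
    match X, Y, h1, h2 with
    | [], _, _, h2 => simp at h2
    | [_], _, _, h2 => simp at h2
    | _ :: _ :: _, [], h1, _ => simp at h1
    | _ :: _ :: _, [_], h1, _ => simp at h1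
    | x1 :: x2 :: X, y1 :: y2 :: Y, h1, h2 =>
      have hS : [e, x1, y1, x2, y2].Nodup := by
        have : (e ::ₘ (↑(x1 :: x2 :: X) + ↑(y1 :: y2 :: Y) : Multiset ℕ)).Nodup := hnd
        rw [Multiset.coe_add, Multiset.cons_coe, Multiset.coe_nodup] at this
        simp only [List.cons_append, List.nodup_cons, List.mem_cons, List.mem_append,
          List.not_mem_nil, or_false, not_or] at this ⊢
        grind
      have key : ∀ w w' : List ℕ, w = ileave (x1 :: x2 :: X) (y1 :: y2 :: Y) →
          w' = ileave (y1 :: y2 :: Y) (x1 :: x2 :: X) → C5 (e :: w) (e :: w') := by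
        intro w w' hw hw'
        subst hw hw'
        simp only [ileave_cons]
        have i1 : [e, x1, y1, x2, y2] <:+: e :: x1 :: y1 :: x2 :: y2 :: ileave X Y :=
          (List.prefix_append [e, x1, y1, x2, y2] _).isInfix
        have i2 : [e, y1, x1, y2, x2] <:+: e :: y1 :: x1 :: y2 :: x2 :: ileave Y X :=
          (List.prefix_append [e, y1, x1, y2, x2] _).isInfix
        refine ⟨e, x1, y2, x2, y1, ?_, Or.inl (infix_left i1),
          Or.inr (infix_left (infix_tail (infix_tail i2))),
          Or.inr (infix_left (infix_tail (infix_tail (infix_tail i2)))),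
          Or.inl (infix_left (infix_tail (infix_tail i1))).symm, Or.inr (infix_left i2).symm⟩
        simp only [List.nodup_cons, List.mem_cons, List.not_mem_nil, or_false, not_or] at hS ⊢
        grind
      by_cases hc : c (hd (x1 :: x2 :: X)) = true
      · by_cases hc' : c' (hd (x1 :: x2 :: X)) = true
        · exfalso; apply hne; simp only [wd, hc, hc']
        · exact (key _ _ (by simp only [wd, hc']; simp)
            (by simp only [wd, hc, if_true])).symm
      · by_cases hc' : c' (hd (x1 :: x2 :: X)) = true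
        · exact (key _ _ (by simp only [wd, hc]; simp)
            (by simp only [wd, hc', if_true]))
        · exfalso; apply hne
          have e1 : c (hd (x1 :: x2 :: X)) = false := by simpa using hc
          have e2 : c' (hd (x1 :: x2 :: X)) = false := by simpa using hc'
          simp only [wd, e1, e2]

/-- if all words agree the paths agree, otherwise there is a 5-cycle -/
lemma words_compare {c c' : ℕ → Bool} (I : List It) (hI : ∀ it ∈ I, okI c it)
    (R : List ℕ) (hR : R ≠ []) (hn : (R ++ I.flatMap (wd c)).Nodup) :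
    I.flatMap (wd c) = I.flatMap (wd c') ∨
      C5 (R ++ I.flatMap (wd c)) (R ++ I.flatMap (wd c')) := by
  induction I generalizing R with
  | nil => left; simp
  | cons it I ih =>
    by_cases hw : wd c it = wd c' it
    · have := ih (fun it h => hI it (by simp [h])) (R ++ wd c it) (by simp [hR])
        (by simpa using hn)
      rcases this with h | h
      · left; simp only [List.flatMap_cons, hw, h]
      · right
        simp only [List.flatMap_cons, ← hw]
        simpa using h
    · right
      obtain ⟨R0, e, rfl⟩ := List.eq_nil_or_concat R |>.resolve_left hR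
      have i1 : (e :: wd c it) <:+: (R0.concat e) ++ (it :: I).flatMap (wd c) :=
        ⟨R0, I.flatMap (wd c), by simp⟩
      have i2 : (e :: wd c' it) <:+: (R0.concat e) ++ (it :: I).flatMap (wd c') :=
        ⟨R0, I.flatMap (wd c'), by simp⟩
      exact C5.mono i1 i2 (wd_C5 (hI it (by simp)) (i1.sublist.nodup hn) hw)

end Pool.Agent.H332C5
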