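import Pool.Agent.H332_C5.Path

set_option autoImplicit false

namespace Pool.Agent.H332C5

lemma coe_flatMap {α : Type} (f : α → List ℕ) (I : List α) :
    ((I.flatMap f : List ℕ) : Multiset ℕ) = (I.map (fun x => (f x : Multiset ℕ))).sum := by
  induction I with
  | nil => simp
  | cons a I ih => simp [← ih]

lemma gm_eq (g : Gp) : gm g = dm g.1 + dm g.2 := by
  have : List.Perm [g.1.1, g.2.1, g.1.2, g.2.2] ([g.1.1, g.1.2] ++ [g.2.1, g.2.2]) := by
    have : List.Perm ([1, 3, 2, 4] : List ℕ) [1, 2, 3, 4] := by decide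
    exact this.map (sym [0, g.1.1, g.1.2, g.2.1, g.2.2])
  unfold gm dm
  rw [Multiset.coe_eq_coe.2 this, Multiset.coe_add]

lemma chain_eq (g : Gp) : ((chain g : List ℕ) : Multiset ℕ) = dm g.1 + dm g.2 := gm_eq g

variable {c : ℕ → Bool} {P : List Dm}

theorem PP_sum (h : Bal c P) (hg : Good c P) :
    ((PP c P : List ℕ) : Multiset ℕ) = {0} + (P.map dm).sum := by
  have hr := rootOK h hg
  unfold PP
  rw [← Multiset.coe_add, coe_flatMap]
  have e0 : (fun x => ((wd c x : List ℕ) : Multiset ℕ)) = ms := funext (wd_ms c)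
  rw [e0]
  unfold II
  rw [List.map_append, List.sum_append, blkI_sum hr.len1 hr.len2]
  have e1 : (((ZZ c P).map (fun p => It.zit p.1 p.2)).map ms).sum =
      ((ZZ c P).map (fun p => (p.1 : Multiset ℕ) + (p.2 : Multiset ℕ))).sum := by
    rw [List.map_map]; rfl
  rw [e1]
  have e2 := mZK_sum c _ (thins c (Vl c P)) le_rfl
  have e3 : ((thins c (Vl c P)).map (fun X : List ℕ => (X : Multiset ℕ))).sum =
      (((prs (Vl c P)).filter (sameg c)).map (fun g => dm g.1 + dm g.2)).sum := by
    unfold thins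
    rw [List.map_map]
    congr 1
    apply List.map_congr_left
    intro g _
    exact chain_eq g
  have e4 : ((blks c (Vl c P)).map gm).sum =
      (((prs (Vl c P)).filter (fun g => !(sameg c g))).map (fun g => dm g.1 + dm g.2)).sum := by
    unfold blks
    congr 1
    apply List.map_congr_left
    intro g _
    exact gm_eq g
  have e5 := filter_sum (fun g : Gp => dm g.1 + dm g.2) (sameg c) (prs (Vl c P))
  have e6 := prs_sum dm (Vl c P)
  have e7 := filter_sum dm (fun p : Dm => c p.1 == c p.2) P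
  have e8 : (P.filter (fun p => c p.1 == c p.2)) = Vl c P := rfl
  have e9 : (P.filter (fun p => !(c p.1 == c p.2))) = Hl c P := rfl
  have e10 : mZ c (thins c (Vl c P)).length (thins c (Vl c P)) = ZZ c P := rfl
  have e11 : mK c (thins c (Vl c P)).length (thins c (Vl c P)) = KK c P := rfl
  rw [e10, e11] at e2
  rw [e8, e9] at e7
  rw [e7, e6, e5, ← e3, ← e4, e2]
  have := hr.sum
  calc _ = (((RR c P).1 : Multiset ℕ) + ((RR c P).2.map dm).sum) + ((blks c (Vl c P)).map gm).sum +
        ((ZZ c P).map (fun p => (p.1 : Multiset ℕ) + (p.2 : Multiset ℕ))).sum := by abel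
    _ = _ := by rw [this]; abel

lemma II_ok (h : Bal c P) (hg : Good c P) : ∀ it ∈ II c P, okI c it := by
  intro it hit
  unfold II at hit
  rcases List.mem_append.1 hit with hit | hit
  · exact blkI_ok blks_ok (fun d hd => Hl_ok d ((rootOK h hg).sub d hd)) it hit
  · obtain ⟨p, hp, rfl⟩ := List.mem_map.1 hit
    have := mZ_prop _ (by norm_num) (thins_Inv c P) p hp
    exact ⟨this.1, by omega, this.2.2⟩

lemma Alt_flatMap {I : List It} (h : ∀ it ∈ I, okI c it) : Alt c false (I.flatMap (wd c)) := by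
  induction I with
  | nil => simp [Alt]
  | cons it I ih =>
    rw [List.flatMap_cons, Alt_append_even (wd_even (h it (by simp)))]
    exact ⟨wd_Alt (h it (by simp)), ih (fun it' h' => h it' (by simp [h']))⟩

theorem PP_Alt (h : Bal c P) (hg : Good c P) : Alt c true (PP c P) := by
  have hr := rootOK h hg
  unfold PP
  rw [Alt_append_odd hr.odd]
  exact ⟨hr.alt, Alt_flatMap (II_ok h hg)⟩

lemma wd_infix {it : It} (h : it ∈ II c P) : wd c it <:+: PP c P := by
  unfold PP
  have h1 : wd c it <:+: (II c P).flatMap (wd c) := by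
    rw [List.flatMap_def]
    exact List.infix_of_mem_flatten (List.mem_map_of_mem h)
  exact h1.trans (List.suffix_append _ _).isInfix

lemma root_infix : (RR c P).1 <:+: PP c P := (List.prefix_append _ _).isInfix

theorem PP_H (h : Bal c P) (hg : Good c P) : ∀ d ∈ Hl c P, E (PP c P) d.1 d.2 := by
  intro d hd
  have hr := rootOK h hg
  rcases hr.dom d hd with h1 | h1
  · obtain ⟨it, h2, h3⟩ := blkI_doms hr.len1 hr.len2 d h1
    exact (wd_E h3).mono (wd_infix (by unfold II; exact List.mem_append_left _ h2))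
  · exact h1.mono root_infix

theorem PP_Z : ∀ p ∈ ZZ c P, G4 (PP c P) p.1 ∧ G4 (PP c P) p.2 ∧ Zp (PP c P) p.1 p.2 := by
  intro p hp
  have h1 := mZ_prop _ (by norm_num) (thins_Inv c P) p hp
  have hi : It.zit p.1 p.2 ∈ II c P := by
    unfold II
    exact List.mem_append_right _ (List.mem_map.2 ⟨p, hp, rfl⟩)
  have h2 := wd_infix hi
  have h3 := wd_zit (c := c) h1.1
  refine ⟨h3.1.mono h2, h3.2.1.mono h2, ?_⟩
  intro x1 x2 X' y1 y2 Y' e1 e2
  exact (h3.2.2 x1 x2 X' y1 y2 Y' e1 e2).imp (E.mono h2) (E.mono h2)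

theorem PP_K (h : Bal c P) (hg : Good c P) : ∀ K ∈ KK c P, G4 (PP c P) K :=
  fun K hK => ((rootOK h hg).k K hK).mono root_infix

theorem PP_thin (h : Bal c P) (hg : Good c P) : ∀ X ∈ thins c (Vl c P), G4 (PP c P) X :=
  G4_back _ le_rfl (fun p hp => ⟨(PP_Z p hp).1, (PP_Z p hp).2.1⟩) (PP_K h hg)

theorem PP_same (h : Bal c P) (hg : Good c P) {g : Gp} (hgp : g ∈ prs (Vl c P))
    (hs : sameg c g = true) : T4 (PP c P) g.1.1 g.2.1 g.1.2 g.2.2 := by
  have : chain g ∈ thins c (Vl c P) := by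
    unfold thins
    exact List.mem_map.2 ⟨g, List.mem_filter.2 ⟨hgp, hs⟩, rfl⟩
  exact PP_thin h hg _ this _ _ _ _ (List.infix_refl _)

theorem PP_diff (h : Bal c P) (hg : Good c P) {g : Gp} (hgp : g ∈ prs (Vl c P))
    (hs : sameg c g = false) : D4 (PP c P) g.1.1 g.1.2 ∧ D4 (PP c P) g.2.1 g.2.2 ∧
      Gap (PP c P) g (Hl c P) := by
  have hr := rootOK h hg
  have : g ∈ blks c (Vl c P) := by
    unfold blks
    exact List.mem_filter.2 ⟨hgp, by simp [hs]⟩
  obtain ⟨d, hd, e, he, hi⟩ := blkI_blk hr.len1 g this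
  have h2 := wd_infix (c := c) (P := P) (by unfold II; exact List.mem_append_left _ hi)
  have h3 := wd_blk (c := c) (g := g) (d1 := d) (d2 := e)
  refine ⟨h3.1.mono h2, h3.2.1.mono h2, h3.2.2.mono h2 ?_⟩
  intro x hx
  simp only [List.mem_cons, List.not_mem_nil, or_false] at hx
  rcases hx with rfl | rfl
  · exact hr.sub _ hd
  · exact hr.sub _ he

theorem PP_V (h : Bal c P) (hg : Good c P) : ∀ v ∈ Vl c P, D4 (PP c P) v.1 v.2 := by
  intro v hv
  rcases mem_prs_or hv with ⟨g, hgp, hx⟩ | hv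
  · rcases hs : sameg c g with _ | _
    · have := PP_diff h hg hgp hs
      rcases hx with rfl | rfl
      · exact this.1
      · exact this.2.1
    · have := PP_same h hg hgp hs
      rcases hx with rfl | rfl
      · exact this.D4a
      · exact this.D4b
  · exact ((rootOK h hg).v v hv).mono root_infix

/-- same against different group -/
lemma group_C5 {l l' : List ℕ} {g : Gp} {D : List Dm} (hl : l.Nodup) (hl' : l'.Nodup)
    (hT : T4 l g.1.1 g.2.1 g.1.2 g.2.2) (hG : Gap l' g D) (hD : ∀ d ∈ D, E l d.1 d.2) :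
    C5 l l' := by
  obtain ⟨a, b, p, q, h1, h2, h3⟩ := hG
  have hpq : E l p q := by
    rcases h2 with h2 | h2
    · exact hD _ h2
    · exact (hD _ h2).symm
  have hf : ∃ f, [a, f, b] <:+: l ∨ [b, f, a] <:+: l := by
    obtain ⟨f, g', k, h | h⟩ := hT
    · rcases h1 with ⟨rfl, rfl⟩ | ⟨rfl, rfl⟩ | ⟨rfl, rfl⟩
      · exact ⟨f, Or.inl ((show _ <:+: _ from ⟨[], _, rfl⟩).trans h)⟩
      · exact ⟨g', Or.inl ((show _ <:+: _ from ⟨[g.1.1, f], [k, g.2.2], rfl⟩).trans h)⟩
      · exact ⟨k, Or.inl ((show _ <:+: _ from ⟨[g.1.1, f, g.2.1, g'], [], rfl⟩).trans h)⟩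
    · rcases h1 with ⟨rfl, rfl⟩ | ⟨rfl, rfl⟩ | ⟨rfl, rfl⟩
      · exact ⟨k, Or.inr ((show _ <:+: _ from ⟨[g.2.2, f, g.1.2, g'], [], rfl⟩).trans h)⟩
      · exact ⟨g', Or.inr ((show _ <:+: _ from ⟨[g.2.2, f], [k, g.1.1], rfl⟩).trans h)⟩
      · exact ⟨f, Or.inr ((show _ <:+: _ from ⟨[], _, rfl⟩).trans h)⟩
  obtain ⟨f, hf⟩ := hf
  have hn : [a, p, q, b].Nodup ∨ [b, p, q, a].Nodup := by
    rcases h3 with h3 | h3
    · left; exact h3.sublist.nodup hl'
    · right; exact h3.sublist.nodup hl'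
  have hfp : f ≠ p := by
    rintro rfl
    have : q = a ∨ q = b := by
      rcases hf with hf | hf
      · exact E_middle hl hf hpq
      · exact (E_middle hl hf hpq).symm
    simp only [List.nodup_cons, List.mem_cons, List.not_mem_nil, or_false, not_or] at hn
    grind
  have hfq : f ≠ q := by
    rintro rfl
    have : p = a ∨ p = b := by
      rcases hf with hf | hf
      · exact E_middle hl hf hpq.symm
      · exact (E_middle hl hf hpq.symm).symm
    simp only [List.nodup_cons, List.mem_cons, List.not_mem_nil, or_false, not_or] at hn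
    grind
  exact C5_of_gap hl hl' hf h3 hfp hfq

theorem PP_compare {c' : ℕ → Bool} (hP : ({0} + (P.map dm).sum : Multiset ℕ).Nodup)
    (h : Bal c P) (hg : Good c P) (h' : Bal c' P) (hg' : Good c' P) :
    PP c P = PP c' P ∨ C5 (PP c P) (PP c' P) := by
  have hl : (PP c P).Nodup := by
    rw [← Multiset.coe_nodup, PP_sum h hg]; exact hP
  have hl' : (PP c' P).Nodup := by
    rw [← Multiset.coe_nodup, PP_sum h' hg']; exact hP
  -- step 1
  by_cases s1 : ∀ p ∈ P, (c p.1 = c p.2 ↔ c' p.1 = c' p.2)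
  swap
  · right
    push Not at s1
    obtain ⟨p, hp, s1⟩ := s1
    rcases s1 with ⟨s1, s2⟩ | ⟨s1, s2⟩
    · have h1 : p ∈ Vl c P := List.mem_filter.2 ⟨hp, by simpa using s1⟩
      have h2 : p ∈ Hl c' P := List.mem_filter.2 ⟨hp, by simpa using s2⟩
      exact C5_of_D4_E hl (PP_V h hg p h1) (PP_H h' hg' p h2)
    · have h1 : p ∈ Hl c P := List.mem_filter.2 ⟨hp, by simpa using s1⟩
      have h2 : p ∈ Vl c' P := List.mem_filter.2 ⟨hp, by simpa using s2⟩
      exact (C5_of_D4_E hl' (PP_V h' hg' p h2) (PP_H h hg p h1)).symm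
  have eV : Vl c P = Vl c' P := by
    unfold Vl
    apply List.filter_congr
    intro p hp
    rw [Bool.eq_iff_iff]; simpa using s1 p hp
  have eH : Hl c P = Hl c' P := by
    unfold Hl
    apply List.filter_congr
    intro p hp
    rw [Bool.eq_iff_iff]; simpa using not_congr (s1 p hp)
  -- step 2
  by_cases s2 : ∀ g ∈ prs (Vl c P), sameg c g = sameg c' g
  swap
  · right
    push Not at s2
    obtain ⟨g, hgp, s2⟩ := s2
    rcases e1 : sameg c g with _ | _
    · have e2 : sameg c' g = true := by rw [e1] at s2; simpa using s2.symm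
      exact (group_C5 hl' hl (PP_same h' hg' (by rw [← eV]; exact hgp) e2)
        (PP_diff h hg hgp e1).2.2 (by rw [eH]; exact PP_H h' hg')).symm
    · have e2 : sameg c' g = false := by rw [e1] at s2; simpa using s2.symm
      exact group_C5 hl hl' (PP_same h hg hgp e1)
        (PP_diff h' hg' (by rw [← eV]; exact hgp) e2).2.2 (by rw [← eH]; exact PP_H h hg)
  have eT : thins c (Vl c P) = thins c' (Vl c' P) := by
    unfold thins
    rw [← eV]
    congr 1
    exact List.filter_congr s2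
  have eB : blks c (Vl c P) = blks c' (Vl c' P) := by
    unfold blks
    rw [← eV]
    apply List.filter_congr
    intro g hg
    rw [s2 g hg]
  -- step 3
  have s3 : (ZZ c P = ZZ c' P ∧ KK c P = KK c' P) ∨ C5 (PP c P) (PP c' P) := by
    have e1 : mZ c' (thins c (Vl c P)).length (thins c (Vl c P)) = ZZ c' P := by
      rw [eT]; rfl
    have e2 : mK c' (thins c (Vl c P)).length (thins c (Vl c P)) = KK c' P := by
      rw [eT]; rfl
    have := merge_compare (c := c) (c' := c') (thins c (Vl c P)).length (s := 4) (by norm_num)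
      (thins_Inv c P) (by rw [eT]; exact thins_Inv c' P) hl hl' le_rfl
      (fun p hp => ⟨(PP_Z p hp).1, (PP_Z p hp).2.1⟩) (PP_K h hg)
      (by rw [e1]; exact fun p hp => ⟨(PP_Z p hp).1, (PP_Z p hp).2.1⟩)
      (by rw [e2]; exact PP_K h' hg')
      (fun p hp => (PP_Z p hp).2.2) (by rw [e1]; exact fun p hp => (PP_Z p hp).2.2)
    rw [e1, e2] at this
    exact this
  rcases s3 with ⟨eZ, eK⟩ | s3
  swap
  · right; exact s3
  -- step 4
  have hroot := (rootOK h hg)
  have s4 := root_compare (c := c) (c' := c') (lft (Vl c P)) (KK c P) (Hl c P)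
    ((root_infix (c := c) (P := P)).sublist.nodup hl)
  have eR : RR c' P = rt c' (lft (Vl c P)) (KK c P) (Hl c P) := by
    unfold RR; rw [eV, eK, eH]
  rw [← eR] at s4
  have s4' : (RR c P).2 = (RR c' P).2 ∧ ((RR c P).1 = (RR c' P).1 ∨
      C5 (RR c P).1 (RR c' P).1) := s4
  obtain ⟨t1, t2⟩ := s4'
  rcases t2 with t2 | t2
  swap
  · right; exact t2.mono root_infix root_infix
  have eI : II c P = II c' P := by
    unfold II; rw [eB, t1, eZ]
  have hne : (RR c P).1 ≠ [] := by
    intro h0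
    have := hroot.odd
    rw [h0] at this
    simp at this
  have s5 := words_compare (c := c) (c' := c') (II c P) (II_ok h hg) (RR c P).1 hne hl
  rcases s5 with s5 | s5
  · left
    unfold PP
    rw [s5, t2, eI]
  · right
    have : PP c' P = (RR c P).1 ++ (II c P).flatMap (wd c') := by
      unfold PP; rw [t2, eI]
    rw [this]
    exact s5

theorem PP_inj {c' : ℕ → Bool} (h : Bal c P) (hg : Good c P) (h' : Bal c' P) (hg' : Good c' P)
    (he : PP c P = PP c' P) : ∀ z ∈ PP c P, c z = c' z :=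
  Alt_agree (PP_Alt h hg) (by rw [he]; exact PP_Alt h' hg')

end Pool.Agent.H332C5
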