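import Pool.Agent.H332_C5.Build

set_option autoImplicit false

namespace Pool.Agent.H332C5

/-- pairs of different colours -/
def Hl (c : ℕ → Bool) (P : List Dm) : List Dm := P.filter (fun p => !(c p.1 == c p.2))
/-- pairs of equal colours -/
def Vl (c : ℕ → Bool) (P : List Dm) : List Dm := P.filter (fun p => c p.1 == c p.2)

def sameg (c : ℕ → Bool) (g : Gp) : Bool := c g.1.1 == c g.2.1
def chain (g : Gp) : List ℕ := [g.1.1, g.2.1, g.1.2, g.2.2]

def thins (c : ℕ → Bool) (V : List Dm) : List (List ℕ) := ((prs V).filter (sameg c)).map chain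
def blks (c : ℕ → Bool) (V : List Dm) : List Gp := (prs V).filter (fun g => !(sameg c g))

/-- the word containing the root, and the dominoes left -/
def rt (c : ℕ → Bool) : List Dm → List (List ℕ) → List Dm → List ℕ × List Dm
  | [], _, H => ([0], H)
  | _ :: _, [], [] => ([0], [])
  | v :: _, [], d :: H =>
    (if c d.1 = c v.1 then [v.1, 0, d.1, d.2, v.2] else [v.1, d.1, d.2, 0, v.2], H)
  | v :: _, K :: Ks, H =>
    (ileave ((K :: Ks).getLast (by simp)) (v.1 :: 0 :: v.2 :: (K :: Ks).dropLast.flatten), H)

/-- zone of chains -/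
def ZZ (c : ℕ → Bool) (P : List Dm) : List (List ℕ × List ℕ) :=
  mZ c (thins c (Vl c P)).length (thins c (Vl c P))
def KK (c : ℕ → Bool) (P : List Dm) : List (List ℕ) :=
  mK c (thins c (Vl c P)).length (thins c (Vl c P))

def RR (c : ℕ → Bool) (P : List Dm) : List ℕ × List Dm :=
  rt c (lft (Vl c P)) (KK c P) (Hl c P)

def II (c : ℕ → Bool) (P : List Dm) : List It :=
  blkI (blks c (Vl c P)) (RR c P).2 ++ (ZZ c P).map (fun p => .zit p.1 p.2)

/-- the path of the colouring `c` -/
def PP (c : ℕ → Bool) (P : List Dm) : List ℕ :=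
  (RR c P).1 ++ (II c P).flatMap (wd c)

/-- balance -/
def Bal (c : ℕ → Bool) (P : List Dm) : Prop :=
  sg (c 0) + (P.map (fun p => sg (c p.1) + sg (c p.2))).sum = 1

def Good (c : ℕ → Bool) (P : List Dm) : Prop :=
  2 * (blks c (Vl c P)).length + 4 ≤ (Hl c P).length

lemma thins_Inv (c : ℕ → Bool) (P : List Dm) : Inv c 4 (thins c (Vl c P)) := by
  intro X hX
  simp only [thins, List.mem_map, List.mem_filter] at hX
  obtain ⟨g, ⟨hg, hs⟩, rfl⟩ := hX
  have h1 := (mem_prs hg).1
  have h2 := (mem_prs hg).2
  simp only [Vl, List.mem_filter, beq_iff_eq] at h1 h2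
  simp only [sameg, beq_iff_eq] at hs
  refine ⟨by simp [chain], ?_⟩
  intro x hx
  simp only [chain, List.mem_cons, List.not_mem_nil, or_false, hd, List.headD_cons] at hx ⊢
  rcases hx with rfl | rfl | rfl | rfl
  · rfl
  · exact hs.symm
  · exact h1.2.symm
  · rw [← h2.2, hs]

lemma Bal_V {c : ℕ → Bool} {P : List Dm} (h : Bal c P) :
    sg (c 0) + 4 * EE c (thins c (Vl c P)) +
      2 * ((lft (Vl c P)).map (fun p => sg (c p.1))).sum = 1 := by
  unfold Bal at h
  rw [filter_sumZ _ (fun p : Dm => c p.1 == c p.2) P] at h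
  have e1 : ((P.filter (fun p => !(c p.1 == c p.2))).map
      (fun p => sg (c p.1) + sg (c p.2))).sum = 0 := by
    apply List.sum_eq_zero
    intro z hz
    simp only [List.mem_map, List.mem_filter] at hz
    obtain ⟨p, ⟨_, hp⟩, rfl⟩ := hz
    revert hp
    cases c p.1 <;> cases c p.2 <;> simp [sg]
  have e2 : ((P.filter (fun p => c p.1 == c p.2)).map
      (fun p => sg (c p.1) + sg (c p.2))).sum = 2 * ((Vl c P).map (fun p => sg (c p.1))).sum := by
    rw [← List.sum_map_mul_left]
    unfold Vl
    congr 1
    apply List.map_congr_left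
    intro p hp
    simp only [List.mem_filter, beq_iff_eq] at hp
    rw [← hp.2]; ring
  rw [e1, e2, prs_sumZ (fun p : Dm => sg (c p.1)) (Vl c P),
    filter_sumZ _ (sameg c) (prs (Vl c P))] at h
  have e3 : (((prs (Vl c P)).filter (fun g => !(sameg c g))).map
      (fun g => sg (c g.1.1) + sg (c g.2.1))).sum = 0 := by
    apply List.sum_eq_zero
    intro z hz
    simp only [List.mem_map, List.mem_filter, sameg] at hz
    obtain ⟨p, ⟨_, hp⟩, rfl⟩ := hz
    revert hp
    cases c p.1.1 <;> cases c p.2.1 <;> simp [sg]
  have e4 : (((prs (Vl c P)).filter (sameg c)).map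
      (fun g => sg (c g.1.1) + sg (c g.2.1))).sum = 2 * EE c (thins c (Vl c P)) := by
    unfold EE thins
    rw [List.map_map, ← List.sum_map_mul_left]
    congr 1
    apply List.map_congr_left
    intro p hp
    simp only [List.mem_filter, sameg, beq_iff_eq] at hp
    simp only [Function.comp, chain, hd, List.headD_cons, ← hp.2]; ring
  rw [e3, e4] at h
  linarith

/-- the possible cases for the root -/
lemma root_cases {c : ℕ → Bool} {P : List Dm} (h : Bal c P) :
    (lft (Vl c P) = [] ∧ KK c P = [] ∧ c 0 = true) ∨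
    (∃ v, lft (Vl c P) = [v] ∧ KK c P = [] ∧ c 0 = false ∧ c v.1 = true) ∨
    (∃ v, lft (Vl c P) = [v] ∧ c 0 = false ∧ c v.1 = false ∧
      ∃ O K, KK c P = O ++ [K] ∧ (∀ x ∈ K, c x = true) ∧ (∀ X ∈ O, ∀ x ∈ X, c x = false) ∧
        O.flatten.length + 4 = K.length) := by
  have hb := Bal_V h
  have hl := lft_length_le (Vl c P)
  have hI := thins_Inv c P
  match hL : lft (Vl c P), hl with
  | [], _ =>
    left
    rw [hL] at hb
    simp only [List.map_nil, List.sum_nil, mul_zero, add_zero] at hb
    rcases h0 : c 0 with _ | _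
    · rw [h0] at hb; simp [sg] at hb; omega
    · rw [h0] at hb; simp [sg] at hb
      exact ⟨rfl, mK_of_EE_zero _ (by norm_num) hI hb, rfl⟩
  | [v], _ =>
    right
    rw [hL] at hb
    simp only [List.map_cons, List.map_nil, List.sum_cons, List.sum_nil, add_zero] at hb
    rcases h0 : c 0 with _ | _
    · rcases h1 : c v.1 with _ | _
      · right
        rw [h0, h1] at hb
        have : EE c (thins c (Vl c P)) = 1 := by simp [sg] at hb; omega
        obtain ⟨O, K, e⟩ := mK_of_EE_one _ (by norm_num) hI this le_rfl
        exact ⟨v, rfl, rfl, h1, O, K, e⟩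
      · left
        rw [h0, h1] at hb
        have : EE c (thins c (Vl c P)) = 0 := by simp [sg] at hb; omega
        exact ⟨v, rfl, mK_of_EE_zero _ (by norm_num) hI this, rfl, h1⟩
    · exfalso
      rcases h1 : c v.1 with _ | _
      · rw [h0, h1] at hb; simp [sg] at hb; omega
      · rw [h0, h1] at hb; simp [sg] at hb; omega
  | _ :: _ :: _, h => simp at h

lemma Hl_ok {c : ℕ → Bool} {P : List Dm} : ∀ d ∈ Hl c P, okD c d := by
  intro d hd
  simp only [Hl, List.mem_filter] at hd
  have := hd.2
  unfold okD
  revert this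
  cases c d.1 <;> cases c d.2 <;> simp

lemma blks_ok {c : ℕ → Bool} {P : List Dm} : ∀ g ∈ blks c (Vl c P), okG c g := by
  intro g hg
  simp only [blks, List.mem_filter] at hg
  have h1 := (mem_prs hg.1).1
  have h2 := (mem_prs hg.1).2
  simp only [Vl, List.mem_filter, beq_iff_eq] at h1 h2
  have h3 := hg.2
  simp only [sameg] at h3
  refine ⟨h1.2.symm, ?_, ?_⟩
  · revert h3; cases c g.1.1 <;> cases c g.2.1 <;> simp
  · rw [← h2.2]; revert h3; cases c g.1.1 <;> cases c g.2.1 <;> simp

/-- properties of the root word -/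
structure RootOK (c : ℕ → Bool) (P : List Dm) : Prop where
  sum : ((RR c P).1 : Multiset ℕ) + ((RR c P).2.map dm).sum =
    {0} + ((lft (Vl c P)).map dm).sum + ((KK c P).map (fun X : List ℕ => (X : Multiset ℕ))).sum +
      ((Hl c P).map dm).sum
  odd : Odd (RR c P).1.length
  alt : Alt c true (RR c P).1
  len1 : 2 * (blks c (Vl c P)).length ≤ (RR c P).2.length
  len2 : (RR c P).2.length ≠ 2 * (blks c (Vl c P)).length + 1
  sub : ∀ d ∈ (RR c P).2, d ∈ Hl c P
  dom : ∀ d ∈ Hl c P, d ∈ (RR c P).2 ∨ E (RR c P).1 d.1 d.2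
  v : ∀ v ∈ lft (Vl c P), D4 (RR c P).1 v.1 v.2
  k : ∀ K ∈ KK c P, G4 (RR c P).1 K

lemma rootOK {c : ℕ → Bool} {P : List Dm} (h : Bal c P) (hg : Good c P) : RootOK c P := by
  unfold Good at hg
  rcases root_cases h with ⟨h1, h2, h3⟩ | ⟨v, h1, h2, h3, h4⟩ | ⟨v, h1, h3, h4, O, K, h5, h6, h7, h8⟩
  · have hR : RR c P = ([0], Hl c P) := by unfold RR; rw [h1, h2]; simp [rt]
    constructor
    · rw [hR, h1, h2]; simp
    · rw [hR]; simp
    · rw [hR]; simp [Alt, h3]
    · rw [hR]; simp only; omega
    · rw [hR]; simp only; omega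
    · rw [hR]; simp
    · rw [hR]; intro d hd; left; exact hd
    · rw [h1]; simp
    · rw [h2]; simp
  · match hH : Hl c P with
    | [] => rw [hH] at hg; simp at hg
    | d :: H' =>
      have hd : c d.2 = !(c d.1) := Hl_ok d (by rw [hH]; simp)
      have hv : c v.2 = c v.1 := by
        have : v ∈ Vl c P := mem_of_lft (by rw [h1]; simp)
        simp only [Vl, List.mem_filter, beq_iff_eq] at this
        exact this.2.symm
      have hR : RR c P =
          (if c d.1 = c v.1 then [v.1, 0, d.1, d.2, v.2] else [v.1, d.1, d.2, 0, v.2], H') := by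
        unfold RR; rw [h1, h2, hH]; simp [rt]
      rw [hH] at hg
      simp only [List.length_cons] at hg
      constructor
      · rw [hR, h1, h2, hH]
        simp only [List.map_cons, List.map_nil, List.sum_cons, List.sum_nil, add_zero]
        have : ∀ w : List ℕ, List.Perm w [0, v.1, v.2, d.1, d.2] →
            (w : Multiset ℕ) = {0} + dm v + dm d := by
          intro w hw
          rw [Multiset.coe_eq_coe.2 hw]; rfl
        have e : (((if c d.1 = c v.1 then [v.1, 0, d.1, d.2, v.2] else [v.1, d.1, d.2, 0, v.2] :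
            List ℕ)) : Multiset ℕ) = {0} + dm v + dm d := by
          apply this
          split_ifs
          · have : List.Perm ([1, 0, 3, 4, 2] : List ℕ) [0, 1, 2, 3, 4] := by decide
            exact this.map (sym [0, v.1, v.2, d.1, d.2])
          · have : List.Perm ([1, 3, 4, 0, 2] : List ℕ) [0, 1, 2, 3, 4] := by decide
            exact this.map (sym [0, v.1, v.2, d.1, d.2])
        rw [e]
        abel
      · rw [hR]; simp only; split_ifs <;> exact ⟨2, rfl⟩
      · rw [hR]; simp only
        split_ifs with hc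
        · simp [Alt, h3, h4, hd, hv, hc]
        · have : c d.1 = false := by
            rw [h4] at hc; simpa using hc
          simp [Alt, h3, h4, hd, hv, this]
      · rw [hR]; simp only; omega
      · rw [hR]; simp only; omega
      · rw [hR, hH]; intro x hx; exact List.mem_cons_of_mem _ hx
      · rw [hR, hH]
        intro x hx
        rcases List.mem_cons.1 hx with rfl | hx
        · right
          simp only
          split_ifs
          · exact Or.inl ⟨[v.1, 0], [v.2], by simp⟩
          · exact Or.inl ⟨[v.1], [0, v.2], by simp⟩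
        · left; exact hx
      · rw [h1, hR]
        intro x hx
        simp only [List.mem_cons, List.not_mem_nil, or_false] at hx
        subst hx
        simp only
        split_ifs
        · exact ⟨0, d.1, d.2, Or.inl (List.infix_refl _)⟩
        · exact ⟨d.1, d.2, 0, Or.inl (List.infix_refl _)⟩
      · rw [h2]; simp
  · have hv : c v.2 = c v.1 := by
      have : v ∈ Vl c P := mem_of_lft (by rw [h1]; simp)
      simp only [Vl, List.mem_filter, beq_iff_eq] at this
      exact this.2.symm
    have hR : RR c P = (ileave K (v.1 :: 0 :: v.2 :: O.flatten), Hl c P) := by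
      unfold RR; rw [h1, h5]
      match O with
      | [] => simp [rt]
      | o :: O => 
        simp only [List.cons_append, rt]
        congr 2
        · rw [List.getLast_cons (by simp)]; simp
        · rw [← List.cons_append, List.dropLast_concat]
    have hlen : K.length = (v.1 :: 0 :: v.2 :: O.flatten).length + 1 := by
      simp only [List.length_cons]; omega
    have hG := G4_ileave _ K (v.1 :: 0 :: v.2 :: O.flatten) rfl (by omega) (by omega)
    constructor
    · rw [hR, h1, h5]
      simp only [List.map_append, List.sum_append, List.map_cons, List.map_nil, List.sum_cons,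
        List.sum_nil, add_zero]
      rw [coe_ileave]
      have e1 : ((v.1 :: 0 :: v.2 :: O.flatten : List ℕ) : Multiset ℕ) =
          {0} + dm v + (O.map (fun X : List ℕ => (X : Multiset ℕ))).sum := by
        have e2 : (O.map (fun X : List ℕ => (X : Multiset ℕ))).sum = (O.flatten : Multiset ℕ) := by
          clear h5 h7 h8 hR hlen hG
          induction O with
          | nil => simp
          | cons a O ih => simp [ih]
        rw [e2]
        have : List.Perm (v.1 :: 0 :: v.2 :: O.flatten) (([0] ++ [v.1, v.2]) ++ O.flatten) := by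
          simp only [List.cons_append, List.nil_append]
          exact List.Perm.swap _ _ _
        rw [Multiset.coe_eq_coe.2 this]
        rw [← Multiset.coe_add, ← Multiset.coe_add]
        rfl
      rw [e1]
      abel
    · rw [hR]; simp only [ileave_length, hlen]
      exact ⟨(v.1 :: 0 :: v.2 :: O.flatten).length, by omega⟩
    · rw [hR]
      apply Alt_ileave (Or.inr hlen) h6
      intro y hy
      simp only [List.mem_cons] at hy
      rcases hy with rfl | rfl | rfl | hy
      · rw [h4]; rfl
      · rw [h3]; rfl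
      · rw [hv, h4]; rfl
      · obtain ⟨X, hX, hy⟩ := List.mem_flatten.1 hy
        rw [h7 X hX y hy]; rfl
    · rw [hR]; simp only; omega
    · rw [hR]; simp only; omega
    · rw [hR]; simp
    · rw [hR]; intro d hd; left; exact hd
    · rw [h1, hR]
      intro x hx
      simp only [List.mem_cons, List.not_mem_nil, or_false] at hx
      subst hx
      simp only
      match K, hlen with
      | [], h => simp at h
      | [_], h => simp at h
      | [_, _], h => simp at h
      | [_, _, _], h => simp at h
      | k1 :: k2 :: k3 :: k4 :: K, _ =>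
        simp only [ileave_cons]
        exact ⟨k2, 0, k3, Or.inl ⟨[k1], k4 :: ileave O.flatten K, by simp⟩⟩
    · rw [h5, hR]
      intro X hX
      rcases List.mem_append.1 hX with hX | hX
      · apply hG.2.sub
        have h1 : X <:+: O.flatten := List.infix_of_mem_flatten hX
        exact h1.trans ⟨[v.1, 0, v.2], [], by simp⟩
      · simp only [List.mem_cons, List.not_mem_nil, or_false] at hX
        subst hX
        exact hG.1

/-- the root words agree or give a 5-cycle -/
lemma root_compare {c c' : ℕ → Bool} (lf : List Dm) (K : List (List ℕ)) (H : List Dm)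
    (hn : (rt c lf K H).1.Nodup) :
    (rt c lf K H).2 = (rt c' lf K H).2 ∧
      ((rt c lf K H).1 = (rt c' lf K H).1 ∨ C5 (rt c lf K H).1 (rt c' lf K H).1) := by
  match lf, K, H with
  | [], _, H => simp [rt]
  | _ :: _, [], [] => simp [rt]
  | v :: _, [], d :: H =>
    simp only [rt] at hn ⊢
    refine ⟨trivial, ?_⟩
    have key : ∀ w w' : List ℕ, w.Nodup → w = [v.1, 0, d.1, d.2, v.2] →
        w' = [v.1, d.1, d.2, 0, v.2] → C5 w w' := by
      intro w w' hw e1 e2
      subst e1 e2
      refine ⟨v.1, 0, v.2, d.2, d.1, ?_, Or.inl ?_, Or.inr ?_, Or.inl ?_, Or.inl ?_, Or.inr ?_⟩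
      · simp only [List.nodup_cons, List.mem_cons, List.not_mem_nil, or_false, not_or] at hw ⊢
        grind
      · exact adjb_sound (by simp [adjb])
      · exact adjb_sound (by simp [adjb])
      · exact adjb_sound (by simp [adjb])
      · exact adjb_sound (by simp [adjb])
      · exact adjb_sound (by simp [adjb])
    have hp : List.Perm [v.1, 0, d.1, d.2, v.2] [v.1, d.1, d.2, 0, v.2] := by
      have : List.Perm ([1, 0, 3, 4, 2] : List ℕ) [1, 3, 4, 0, 2] := by decide
      exact this.map (sym [0, v.1, v.2, d.1, d.2])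
    by_cases h1 : c d.1 = c v.1
    · by_cases h2 : c' d.1 = c' v.1
      · left; rw [if_pos h1, if_pos h2]
      · right
        rw [if_pos h1] at hn ⊢
        rw [if_neg h2]
        exact key _ _ hn rfl rfl
    · by_cases h2 : c' d.1 = c' v.1
      · right
        rw [if_neg h1] at hn ⊢
        rw [if_pos h2]
        exact (key _ _ (hp.nodup_iff.2 hn) rfl rfl).symm
      · left; rw [if_neg h1, if_neg h2]
  | v :: _, K :: Ks, H => simp [rt]

end Pool.Agent.H332C5
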