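import Pool.Agent.H332_C5.Defs

set_option autoImplicit false

namespace Pool.Agent.H332C5

/-- adjacency in a list, as a Boolean -/
def adjb : List ℕ → ℕ → ℕ → Bool
  | x :: y :: t, a, b => (x == a && y == b) || (x == b && y == a) || adjb (y :: t) a b
  | _, _, _ => false

lemma adjb_sound {l : List ℕ} {a b : ℕ} (h : adjb l a b = true) : E l a b := by
  fun_induction adjb l a b with
  | case1 x y t a b ih =>
    simp only [Bool.or_eq_true, Bool.and_eq_true, beq_iff_eq] at h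
    rcases h with (⟨h1, h2⟩ | ⟨h1, h2⟩) | h
    · subst h1 h2; exact Or.inl (List.prefix_append [x, y] t).isInfix
    · subst h1 h2; exact Or.inr (List.prefix_append [x, y] t).isInfix
    · exact (ih h).mono (List.suffix_cons _ _).isInfix
  | case2 => simp at h

lemma E_mem {l : List ℕ} {a b : ℕ} (h : E l a b) : a ∈ l ∧ b ∈ l := by
  rcases h with h | h
  · have := h.subset; simp at this; exact this
  · have := h.subset; simp at this; exact this.symm

/-- distance four, as a Boolean -/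
def dist4b : List ℕ → ℕ → ℕ → Bool
  | x :: f :: g :: h :: y :: t, a, b =>
    (x == a && y == b) || (x == b && y == a) || dist4b (f :: g :: h :: y :: t) a b
  | _, _, _ => false

lemma dist4b_sound {l : List ℕ} {a b : ℕ} (h : dist4b l a b = true) : D4 l a b := by
  fun_induction dist4b l a b with
  | case1 x f g k y t a b ih =>
    simp only [Bool.or_eq_true, Bool.and_eq_true, beq_iff_eq] at h
    rcases h with (⟨h1, h2⟩ | ⟨h1, h2⟩) | h
    · subst h1 h2; exact ⟨f, g, k, Or.inl (List.prefix_append [x, f, g, k, y] t).isInfix⟩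
    · subst h1 h2; exact ⟨f, g, k, Or.inr (List.prefix_append [x, f, g, k, y] t).isInfix⟩
    · exact (ih h).mono (List.suffix_cons _ _).isInfix
  | case2 => simp at h

/-- check a 5-cycle -/
def chk5 (l l' : List ℕ) : List ℕ → Bool
  | [a, b, c, d, e] => decide ([a, b, c, d, e].Nodup) && (adjb l a b || adjb l' a b) &&
      (adjb l b c || adjb l' b c) && (adjb l c d || adjb l' c d) && (adjb l d e || adjb l' d e) &&
      (adjb l e a || adjb l' e a)
  | _ => false

lemma chk5_sound {l l' cy : List ℕ} (h : chk5 l l' cy = true) : C5 l l' := by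
  match cy with
  | [a, b, c, d, e] =>
    simp only [chk5, Bool.and_eq_true, Bool.or_eq_true, decide_eq_true_eq] at h
    obtain ⟨⟨⟨⟨⟨h0, h1⟩, h2⟩, h3⟩, h4⟩, h5⟩ := h
    exact ⟨a, b, c, d, e, h0, h1.imp adjb_sound adjb_sound, h2.imp adjb_sound adjb_sound,
      h3.imp adjb_sound adjb_sound, h4.imp adjb_sound adjb_sound, h5.imp adjb_sound adjb_sound⟩
  | [] | [_] | [_, _] | [_, _, _] | [_, _, _, _] | _ :: _ :: _ :: _ :: _ :: _ :: _ =>
    simp [chk5] at h

lemma E.map {l : List ℕ} {a b : ℕ} (f : ℕ → ℕ) (h : E l a b) : E (l.map f) (f a) (f b) :=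
  h.imp (fun h => by simpa using h.map f) (fun h => by simpa using h.map f)

lemma D4.map {l : List ℕ} {a b : ℕ} (f : ℕ → ℕ) (h : D4 l a b) : D4 (l.map f) (f a) (f b) := by
  obtain ⟨p, q, r, h⟩ := h
  exact ⟨f p, f q, f r, h.imp (fun h => by simpa using h.map f) (fun h => by simpa using h.map f)⟩

/-- the vertex named by symbol `i` -/
def sym (S : List ℕ) (i : ℕ) : ℕ := S.getD i 0

lemma C5_sym {S l l' : List ℕ} (hS : S.Nodup) (hl : ∀ x ∈ l, x < S.length)
    (hl' : ∀ x ∈ l', x < S.length) (h : C5 l l') : C5 (l.map (sym S)) (l'.map (sym S)) := by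
  obtain ⟨a, b, c, d, e, hn, q1, q2, q3, q4, q5⟩ := h
  have mem : ∀ x y, (E l x y ∨ E l' x y) → x < S.length := by
    rintro x y (h | h)
    · exact hl _ (E_mem h).1
    · exact hl' _ (E_mem h).1
  have inj : ∀ x y, x < S.length → y < S.length → sym S x = sym S y → x = y := by
    intro x y hx hy hxy
    rw [sym, sym, List.getD_eq_getElem _ _ hx, List.getD_eq_getElem _ _ hy] at hxy
    exact (List.Nodup.getElem_inj_iff hS).1 hxy
  have ha := mem _ _ q1
  have hb := mem _ _ q2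
  have hc := mem _ _ q3
  have hd := mem _ _ q4
  have he := mem _ _ q5
  have key : ∀ x y, (E l x y ∨ E l' x y) →
      (E (l.map (sym S)) (sym S x) (sym S y) ∨ E (l'.map (sym S)) (sym S x) (sym S y)) :=
    fun x y h => h.imp (E.map _) (E.map _)
  refine ⟨sym S a, sym S b, sym S c, sym S d, sym S e, ?_, key _ _ q1, key _ _ q2, key _ _ q3,
    key _ _ q4, key _ _ q5⟩
  have := List.Nodup.map_on (f := sym S) (l := [a, b, c, d, e]) (by
    intro x hx y hy hxy
    have hx' : x < S.length := by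
      simp only [List.mem_cons, List.not_mem_nil, or_false] at hx
      rcases hx with rfl | rfl | rfl | rfl | rfl <;> assumption
    have hy' : y < S.length := by
      simp only [List.mem_cons, List.not_mem_nil, or_false] at hy
      rcases hy with rfl | rfl | rfl | rfl | rfl <;> assumption
    exact inj x y hx' hy' hxy) hn
  simpa using this

/-- two dominoes after the apex -/
def tHH : Bool → Bool → List ℕ
  | false, false => [1, 2, 3, 4]
  | false, true => [4, 3, 1, 2]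
  | true, false => [3, 4, 2, 1]
  | true, true => [2, 1, 4, 3]

/-- three dominoes after the apex -/
def tDDD : Bool → Bool → Bool → List ℕ
  | false, false, false => [3, 4, 5, 6, 1, 2]
  | false, false, true => [1, 2, 6, 5, 3, 4]
  | false, true, false => [5, 6, 1, 2, 4, 3]
  | false, true, true => [4, 3, 1, 2, 6, 5]
  | true, false, false => [5, 6, 3, 4, 2, 1]
  | true, false, true => [2, 1, 3, 4, 6, 5]
  | true, true, false => [4, 3, 2, 1, 5, 6]
  | true, true, true => [6, 5, 2, 1, 4, 3]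

/-- a block and two dominoes after the apex -/
def tBDD : Bool → Bool → Bool → List ℕ
  | false, false, false => [7, 8, 3, 2, 5, 6, 1, 4]
  | false, false, true => [8, 7, 1, 4, 5, 6, 3, 2]
  | false, true, false => [7, 8, 1, 2, 6, 5, 3, 4]
  | false, true, true => [6, 5, 1, 2, 8, 7, 3, 4]
  | true, false, false => [4, 8, 7, 3, 2, 6, 5, 1]
  | true, false, true => [4, 6, 5, 3, 2, 7, 8, 1]
  | true, true, false => [2, 8, 7, 3, 4, 5, 6, 1]
  | true, true, true => [2, 7, 8, 1, 4, 5, 6, 3]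

def cHH : List (List ℕ) :=
  [[0, 1, 2, 3, 4], [0, 1, 2, 4, 3], [0, 1, 4, 3, 2], [0, 3, 1, 2, 4], [0, 2, 1, 3, 4],
    [0, 2, 1, 4, 3]]

def cDDD : List (List ℕ) :=
  [[1, 2, 4, 5, 6], [1, 3, 4, 5, 6], [2, 4, 3, 5, 6], [1, 2, 6, 5, 3], [0, 4, 2, 6, 5],
    [0, 2, 4, 6, 5], [0, 4, 2, 1, 5], [0, 2, 1, 3, 4], [0, 1, 6, 5, 3], [1, 2, 3, 4, 5],
    [0, 3, 4, 1, 6], [0, 1, 2, 3, 4], [1, 2, 5, 3, 4], [1, 2, 4, 3, 6], [0, 5, 2, 1, 6],
    [1, 3, 2, 6, 5], [0, 4, 1, 2, 6], [2, 4, 3, 6, 5], [0, 2, 1, 4, 6], [1, 4, 3, 2, 5]]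

def cBDD : List (List ℕ) :=
  [[1, 5, 3, 7, 8], [1, 6, 5, 3, 8], [0, 2, 3, 8, 7], [1, 2, 6, 5, 4], [1, 4, 3, 6, 5],
    [0, 4, 1, 7, 8], [0, 2, 6, 5, 4], [0, 2, 3, 5, 4], [1, 6, 3, 8, 7], [1, 4, 3, 2, 5],
    [0, 4, 8, 3, 7], [0, 2, 3, 7, 8], [0, 2, 7, 1, 8], [0, 4, 6, 2, 7], [0, 2, 1, 8, 7],
    [0, 4, 8, 2, 6], [0, 2, 1, 5, 6], [1, 6, 3, 7, 8]]

lemma tHH_C5 : ∀ p q p' q' : Bool, (p, q) ≠ (p', q') → C5 (0 :: tHH p q) (0 :: tHH p' q') := by
  have : ∀ p q p' q' : Bool, (p, q) ≠ (p', q') →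
      ∃ cy ∈ cHH, chk5 (0 :: tHH p q) (0 :: tHH p' q') cy = true := by decide
  intro p q p' q' h
  obtain ⟨cy, _, h⟩ := this p q p' q' h
  exact chk5_sound h

set_option maxRecDepth 100000 in
lemma tDDD_C5 : ∀ p q r p' q' r' : Bool, (p, q, r) ≠ (p', q', r') →
    C5 (0 :: tDDD p q r) (0 :: tDDD p' q' r') := by
  have : ∀ p q r p' q' r' : Bool, (p, q, r) ≠ (p', q', r') →
      ∃ cy ∈ cDDD, chk5 (0 :: tDDD p q r) (0 :: tDDD p' q' r') cy = true := by decide
  intro p q r p' q' r' h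
  obtain ⟨cy, _, h⟩ := this p q r p' q' r' h
  exact chk5_sound h

set_option maxRecDepth 100000 in
lemma tBDD_C5 : ∀ p q r p' q' r' : Bool, (p, q, r) ≠ (p', q', r') →
    C5 (0 :: tBDD p q r) (0 :: tBDD p' q' r') := by
  have : ∀ p q r p' q' r' : Bool, (p, q, r) ≠ (p', q', r') →
      ∃ cy ∈ cBDD, chk5 (0 :: tBDD p q r) (0 :: tBDD p' q' r') cy = true := by decide
  intro p q r p' q' r' h
  obtain ⟨cy, _, h⟩ := this p q r p' q' r' h
  exact chk5_sound h

lemma tHH_perm : ∀ p q : Bool, List.Perm (tHH p q) [1, 2, 3, 4] := by decide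
lemma tDDD_perm : ∀ p q r : Bool, List.Perm (tDDD p q r) [1, 2, 3, 4, 5, 6] := by decide
lemma tBDD_perm : ∀ p q r : Bool, List.Perm (tBDD p q r) [1, 2, 3, 4, 5, 6, 7, 8] := by decide

lemma tHH_adj : ∀ p q : Bool, adjb (tHH p q) 1 2 = true ∧ adjb (tHH p q) 3 4 = true := by decide
lemma tDDD_adj : ∀ p q r : Bool, adjb (tDDD p q r) 1 2 = true ∧ adjb (tDDD p q r) 3 4 = true ∧
    adjb (tDDD p q r) 5 6 = true := by decide
lemma tBDD_adj : ∀ p q r : Bool, adjb (tBDD p q r) 5 6 = true ∧ adjb (tBDD p q r) 7 8 = true := by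
  decide
lemma tBDD_D4 : ∀ p q r : Bool, dist4b (tBDD p q r) 1 3 = true ∧ dist4b (tBDD p q r) 2 4 = true := by
  decide

/-- `block` promise at the level of symbols -/
lemma tBDD_gap : ∀ p q r : Bool, ∃ a ∈ [1, 2, 3], ∃ d ∈ [(5, 6), (6, 5), (7, 8), (8, 7)],
    ([a, d.1, d.2, a + 1] <:+: tBDD p q r ∨ [a + 1, d.1, d.2, a] <:+: tBDD p q r) := by decide

end Pool.Agent.H332C5
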